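import Pool.Agent.L5helper58.WP.Core

/-!
# The choice of the parameters
-/

set_option autoImplicit false

namespace Pool.Agent.L5helper58.WP

open Finset DomAC0 H568R2 Filter Topology

/-- Polynomially bounded with exponent `e`. -/
def PB (e : ℕ) (f : ℕ → ℝ) : Prop :=
  ∃ C : ℝ, 0 ≤ C ∧ ∀ T : ℕ, 1 ≤ T → 0 ≤ f T ∧ f T ≤ C * (T : ℝ) ^ e

theorem PB.const {c : ℝ} (hc : 0 ≤ c) : PB 0 (fun _ => c) :=
  ⟨c, hc, fun T _ => ⟨hc, by simp⟩⟩

theorem PB.id : PB 1 (fun T => (T : ℝ)) :=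
  ⟨1, zero_le_one, fun T _ => ⟨Nat.cast_nonneg T, by simp⟩⟩

theorem PB.mono {e e' : ℕ} {f : ℕ → ℝ} (h : PB e f) (he : e ≤ e') : PB e' f := by
  obtain ⟨C, hC, h⟩ := h
  refine ⟨C, hC, fun T hT => ⟨(h T hT).1, (h T hT).2.trans ?_⟩⟩
  have : (1 : ℝ) ≤ T := by exact_mod_cast hT
  gcongr

theorem PB.add {e : ℕ} {f g : ℕ → ℝ} (h : PB e f) (h' : PB e g) : PB e (fun T => f T + g T) := by
  obtain ⟨C, hC, h⟩ := h
  obtain ⟨C', hC', h'⟩ := h'
  refine ⟨C + C', by positivity, fun T hT => ⟨add_nonneg (h T hT).1 (h' T hT).1, ?_⟩⟩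
  rw [add_mul]
  exact add_le_add (h T hT).2 (h' T hT).2

theorem PB.mul {e e' : ℕ} {f g : ℕ → ℝ} (h : PB e f) (h' : PB e' g) :
    PB (e + e') (fun T => f T * g T) := by
  obtain ⟨C, hC, h⟩ := h
  obtain ⟨C', hC', h'⟩ := h'
  refine ⟨C * C', by positivity, fun T hT => ⟨mul_nonneg (h T hT).1 (h' T hT).1, ?_⟩⟩
  calc f T * g T ≤ (C * (T : ℝ) ^ e) * (C' * (T : ℝ) ^ e') :=
        mul_le_mul (h T hT).2 (h' T hT).2 (h' T hT).1 (by positivity)
    _ = C * C' * (T : ℝ) ^ (e + e') := by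
        rw [pow_add]
        ring

theorem PB.pow {e : ℕ} {f : ℕ → ℝ} (h : PB e f) (n : ℕ) : PB (e * n) (fun T => f T ^ n) := by
  obtain ⟨C, hC, h⟩ := h
  refine ⟨C ^ n, by positivity, fun T hT => ⟨pow_nonneg (h T hT).1 n, ?_⟩⟩
  calc f T ^ n ≤ (C * (T : ℝ) ^ e) ^ n := pow_le_pow_left₀ (h T hT).1 (h T hT).2 n
    _ = C ^ n * (T : ℝ) ^ (e * n) := by rw [mul_pow, ← pow_mul]

theorem PB.congr {e : ℕ} {f g : ℕ → ℝ} (h : PB e f) (hg : ∀ T, g T = f T) : PB e g := by
  have : g = f := funext hg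
  rw [this]
  exact h

/-- A polynomially bounded function times a geometric sequence tends to zero. -/
theorem PB.geom {e : ℕ} {f : ℕ → ℝ} (h : PB e f) {ρ : ℝ} (h0 : 0 ≤ ρ) (h1 : ρ < 1) :
    Tendsto (fun T : ℕ => f T * ρ ^ T) atTop (𝓝 0) := by
  obtain ⟨C, hC, h⟩ := h
  have h2 := (tendsto_pow_const_mul_const_pow_of_abs_lt_one e
    (by rwa [abs_of_nonneg h0] : |ρ| < 1)).const_mul C
  rw [mul_zero] at h2
  refine squeeze_zero' ?_ ?_ h2
  · filter_upwards [eventually_ge_atTop 1] with T hT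
    exact mul_nonneg (h T hT).1 (pow_nonneg h0 T)
  · filter_upwards [eventually_ge_atTop 1] with T hT
    calc f T * ρ ^ T ≤ (C * (T : ℝ) ^ e) * ρ ^ T :=
          mul_le_mul_of_nonneg_right (h T hT).2 (pow_nonneg h0 T)
      _ = C * ((T : ℝ) ^ e * ρ ^ T) := by ring

/-- A polynomially bounded function times a large power of `c / T` tends to zero. -/
theorem PB.neg_pow {e : ℕ} {f : ℕ → ℝ} (h : PB e f) {c : ℝ} (hc : 0 ≤ c) :
    Tendsto (fun T : ℕ => f T * (c / T) ^ (e + 1)) atTop (𝓝 0) := by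
  obtain ⟨C, hC, h⟩ := h
  have h2 : Tendsto (fun T : ℕ => C * c ^ (e + 1) * ((T : ℝ))⁻¹) atTop (𝓝 0) := by
    have := (tendsto_inv_atTop_nhds_zero_nat (𝕜 := ℝ)).const_mul (C * c ^ (e + 1))
    rwa [mul_zero] at this
  refine squeeze_zero' ?_ ?_ h2
  · filter_upwards [eventually_ge_atTop 1] with T hT
    exact mul_nonneg (h T hT).1 (by positivity)
  · filter_upwards [eventually_ge_atTop 1] with T hT
    have hT0 : (0 : ℝ) < T := by exact_mod_cast hT
    calc f T * (c / T) ^ (e + 1) ≤ (C * (T : ℝ) ^ e) * (c / T) ^ (e + 1) :=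
          mul_le_mul_of_nonneg_right (h T hT).2 (by positivity)
      _ = C * c ^ (e + 1) * ((T : ℝ))⁻¹ := by
          rw [div_pow, pow_succ (T : ℝ)]
          field_simp

/-- For all `K`, `s`, `D`, `b`, `ℓ` there is a length of the inputs for which no reduction
exists. -/
theorem exists_length (K : ℕ) (s : ℕ → ℕ) (D b ℓ : ℕ) : ∃ n : ℕ,
    ∀ (W : (Fin b → Bool) → List (ℤ × ℤ)), (∀ σ, (W σ).length = ℓ) →
    (∀ σ, ∀ c ∈ W σ, Ok c) →
    ∀ (C : Circuit (Fin n × Fin 4)) (N : ℕ) (out : Fin N → Fin b → (Fin n × Fin 4) ⊕ Fin C.size),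
    C.size ≤ n ^ D + D → N ≤ n ^ D + D → (∀ i j, C.nodeDepth (out i j) ≤ D) →
    ¬ ∀ U : List (Fin 4), U.length = n → (U ∈ LL ↔ ∀ j < K, TrivB j (s j)
      ((List.finRange N).flatMap (fun i => W (fun j => C.nodeVal (enc n U) (out i j))))) := by
  obtain ⟨E, hE⟩ : ∃ E, E = (D + 2) * (D + 1) := ⟨_, rfl⟩
  obtain ⟨k, hk⟩ : ∃ k, k = E + E + 1 := ⟨_, rfl⟩
  obtain ⟨Smax, hSmax⟩ : ∃ Smax, ∀ j < K, s j ≤ Smax := by
    refine ⟨∑ j ∈ range K, s j, fun j hj => ?_⟩
    exact Finset.single_le_sum (f := s) (fun _ _ => Nat.zero_le _) (mem_range.mpr hj)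
  let κ := b * KK k D + 1
  let n : ℕ → ℕ := fun T => T * (κ * ((3 * T) ^ D * T + 1) + 1)
  let S : ℕ → ℕ := fun T => n T ^ D + D
  let B : ℕ → ℕ := fun T => S T * ℓ + K * (Smax + 1)
  have hn : PB (D + 2) (fun T => (n T : ℝ)) := by
    have h1 : PB (D + 1) (fun T => ((3 * (T : ℝ)) ^ D * T + 1)) := by
      have h2 : PB (0 + 1) (fun T => 3 * (T : ℝ)) := (PB.const (by norm_num)).mul PB.id
      have h3 := (h2.pow D).mul PB.id
      exact (h3.mono (by simp)).add ((PB.const zero_le_one).mono (Nat.zero_le _))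
    have h2 : PB (D + 1) (fun T => (κ : ℝ) * ((3 * (T : ℝ)) ^ D * T + 1) + 1) := by
      have h3 := (PB.const (c := (κ : ℝ)) (Nat.cast_nonneg _)).mul h1
      exact (h3.mono (by omega)).add ((PB.const zero_le_one).mono (Nat.zero_le _))
    have h3 := PB.id.mul h2
    refine (h3.mono (by omega)).congr (fun T => ?_)
    simp only [n]
    push_cast
    ring
  have hS : PB E (fun T => (S T : ℝ)) := by
    have h1 := (hn.pow D).mono (e' := E) (by rw [hE]; exact Nat.mul_le_mul_left _ (by omega))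
    refine (h1.add ((PB.const (c := (D : ℝ)) (Nat.cast_nonneg _)).mono (Nat.zero_le E))).congr
      (fun T => ?_)
    simp only [S]
    push_cast
    ring
  have hn' : PB E (fun T => (n T : ℝ)) := hn.mono (by rw [hE]; exact Nat.le_mul_of_pos_right _ (by omega))
  have hA : Tendsto (fun T : ℕ => (D : ℝ) * ((S T * (n T * 4 + S T + 1) : ℕ) : ℝ) *
      ((4 : ℝ) ^ (KK k D) * (3 * (1 / (3 * T)))) ^ k) atTop (𝓝 0) := by
    have h1 : PB E (fun T => ((n T : ℝ) * 4 + S T + 1)) := by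
      have h2 : PB E (fun T => (n T : ℝ) * 4) := (hn'.mul (PB.const (by norm_num : (0:ℝ) ≤ 4))).mono
        (by simp)
      exact (h2.add hS).add ((PB.const zero_le_one).mono (Nat.zero_le _))
    have h2 : PB (E + E) (fun T => (D : ℝ) * ((S T * (n T * 4 + S T + 1) : ℕ) : ℝ)) := by
      have h3 := (PB.const (c := (D : ℝ)) (Nat.cast_nonneg _)).mul (hS.mul h1)
      refine (h3.mono (by simp)).congr (fun T => ?_)
      push_cast
      ring
    have h3 := h2.neg_pow (c := (4 : ℝ) ^ (KK k D)) (by positivity)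
    refine h3.congr' ?_
    filter_upwards [eventually_ge_atTop 1] with T hT
    have hT0 : (T : ℝ) ≠ 0 := by
      have : (0 : ℝ) < T := by exact_mod_cast hT
      exact this.ne'
    rw [hk]
    congr 2
    field_simp
  have hB : Tendsto (fun T : ℕ => ((T * κ : ℕ) : ℝ) *
      (1 - (1 / (3 * (T : ℝ))) ^ D) ^ ((3 * T) ^ D * T)) atTop (𝓝 0) := by
    have h1 : PB 1 (fun T => ((T * κ : ℕ) : ℝ)) := by
      refine ((PB.id.mul (PB.const (c := (κ : ℝ)) (Nat.cast_nonneg _))).mono (by simp)).congr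
        (fun T => ?_)
      push_cast
      ring
    have h2 := h1.geom (Real.exp_nonneg (-1)) (by
      rw [Real.exp_lt_one_iff]
      norm_num)
    refine squeeze_zero' ?_ ?_ h2
    · filter_upwards [eventually_ge_atTop 1] with T hT
      refine mul_nonneg (Nat.cast_nonneg _) (pow_nonneg ?_ _)
      have hT1 : (1 : ℝ) ≤ T := by exact_mod_cast hT
      have : (1 / (3 * (T : ℝ))) ^ D ≤ 1 := by
        apply pow_le_one₀ (by positivity)
        rw [div_le_one (by positivity)]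
        linarith
      linarith
    · filter_upwards [eventually_ge_atTop 1] with T hT
      have hT1 : (1 : ℝ) ≤ T := by exact_mod_cast hT
      refine mul_le_mul_of_nonneg_left ?_ (Nat.cast_nonneg _)
      have hle : (1 / (3 * (T : ℝ))) ^ D ≤ 1 := by
        apply pow_le_one₀ (by positivity)
        rw [div_le_one (by positivity)]
        linarith
      calc (1 - (1 / (3 * (T : ℝ))) ^ D) ^ ((3 * T) ^ D * T)
          ≤ (Real.exp (-(1 / (3 * (T : ℝ))) ^ D)) ^ ((3 * T) ^ D * T) :=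
            pow_le_pow_left₀ (by linarith) (Real.one_sub_le_exp_neg _) _
        _ = Real.exp (-1) ^ T := by
            rw [← Real.exp_nat_mul, ← Real.exp_nat_mul]
            congr 1
            push_cast
            rw [one_div, inv_pow]
            have : ((3 * (T : ℝ)) ^ D) ≠ 0 := by positivity
            field_simp
  have hC : Tendsto (fun T : ℕ => (2 * Qb κ K (B T) (S T * ℓ) + 1) * rho (b * KK k D) ^ T)
      atTop (𝓝 0) := by
    have h1 : PB E (fun T => ((S T * ℓ : ℕ) : ℝ)) := by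
      refine ((hS.mul (PB.const (c := (ℓ : ℝ)) (Nat.cast_nonneg _))).mono (by simp)).congr
        (fun T => ?_)
      push_cast
      ring
    have h2 : PB E (fun T => ((B T : ℕ) : ℝ)) := by
      refine (h1.add ((PB.const (c := ((K * (Smax + 1) : ℕ) : ℝ)) (Nat.cast_nonneg _)).mono
        (Nat.zero_le _))).congr (fun T => ?_)
      simp only [B]
      push_cast
      ring
    obtain ⟨e, he⟩ : ∃ e, PB e (fun T => 2 * Qb κ K (B T) (S T * ℓ) + 1) := by
      have two0 : (0 : ℝ) ≤ 2 := by norm_num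
      have hK0 : (0 : ℝ) ≤ K := Nat.cast_nonneg _
      have g1 : PB E (fun T => 2 * ((S T * ℓ : ℕ) : ℝ) + 1) :=
        (((PB.const two0).mul h1).mono (by simp)).add ((PB.const zero_le_one).mono (Nat.zero_le _))
      have g2 := (h1.mul (g1.pow κ)).add ((PB.const zero_le_one).mono (Nat.zero_le _))
      have g3 := (PB.const hK0).mul ((PB.const hK0).mul (g2.pow (2 * K)))
      have g4 : PB E (fun T => 2 * ((B T : ℕ) : ℝ) + 1) :=
        (((PB.const two0).mul h2).mono (by simp)).add ((PB.const zero_le_one).mono (Nat.zero_le _))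
      have g5 := g4.mul g3
      have g6 := h1.pow 2
      obtain ⟨e6, he6⟩ : ∃ e6, PB e6 (fun T => ((S T * ℓ : ℕ) : ℝ) ^ 2 +
          (2 * ((B T : ℕ) : ℝ) + 1) * (K * (K * ((((S T * ℓ : ℕ) : ℝ) *
            (2 * ((S T * ℓ : ℕ) : ℝ) + 1) ^ κ) + 1) ^ (2 * K)))) :=
        ⟨_, (g6.mono (le_max_left _ _)).add (g5.mono (le_max_right _ _))⟩
      have g7 := (PB.const hK0).mul he6
      have g8 := (PB.const two0).mul g7
      exact ⟨_, g8.add ((PB.const zero_le_one).mono (Nat.zero_le _))⟩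
    exact he.geom (rho_nonneg _) (rho_lt_one _)
  obtain ⟨T, hT1, hTA, hTB, hTC⟩ := ((eventually_ge_atTop 1).and
    ((hA.eventually_lt_const (by norm_num : (0 : ℝ) < 1 / 2)).and
      ((hB.eventually_lt_const (by norm_num : (0 : ℝ) < 1 / 2)).and
        (hC.eventually_lt_const (by norm_num : (0 : ℝ) < 1))))).exists
  refine ⟨n T, fun W hW hW' C N out hC1 hC2 hC3 => ?_⟩
  have hT1' : (1 : ℝ) ≤ T := by exact_mod_cast hT1
  refine core (K := K) s D b ℓ k T ((3 * T) ^ D * T) (n T) (S T) (S T) (B T) (1 / (3 * (T : ℝ)))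
    (by positivity) ?_ (by omega) rfl (fun j hj => ?_) ?_ hTC W hW hW' C N out hC1 hC2 hC3
  · rw [div_le_div_iff₀ (by positivity) (by norm_num)]
    linarith
  · have h1 := hSmax j hj
    simp only [B]
    have : j * (s j + 1) ≤ K * (Smax + 1) := Nat.mul_le_mul hj.le (by omega)
    omega
  · have e1 : ((T * (b * KK k D + 1) : ℕ) : ℝ) *
        (1 - (1 / (3 * (T : ℝ))) ^ D) ^ ((3 * T) ^ D * T) < 1 / 2 := hTB
    linarith

end Pool.Agent.L5helper58.WP
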