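import Pool.Agent.L5helper58.WP.Grp

/-!
# The word problem by sums over chains
-/

set_option autoImplicit false

namespace Pool.Agent.L5helper58.WP

open Finset

/-- The displacement. -/
def pos (w : List (ℤ × ℤ)) : ℤ := (w.map Prod.fst).sum

theorem pos_cons (c : ℤ × ℤ) (w : List (ℤ × ℤ)) : pos (c :: w) = c.1 + pos w := by
  simp [pos]

theorem runB_cons (k s : ℕ) (c : ℤ × ℤ) (w : List (ℤ × ℤ)) (q : ℤ × (ℕ → ℤ)) :
    runB k s (c :: w) q = actB k s c (runB k s w q) := rfl

theorem runB_fst (k s : ℕ) (w : List (ℤ × ℤ)) (q : ℤ × (ℕ → ℤ)) :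
    (runB k s w q).1 = q.1 + pos w := by
  induction w with
  | nil => simp [runB, pos]
  | cons c w ih =>
    rw [runB_cons, pos_cons]
    change (runB k s w q).1 + c.1 = _
    rw [ih]
    ring

/-- The coefficient of the entry `a + r` in the entry `a` after the word, started at `m`. -/
def cf (k s : ℕ) (m : ℤ) : List (ℤ × ℤ) → ℕ → ℕ → ℤ
  | [], _, 0 => 1
  | [], _, _ + 1 => 0
  | _ :: _, _, 0 => 1
  | c :: w, a, r + 1 => cf k s m w a (r + 1) +
      (if a ≤ k ∧ m + pos w = a * (s + 1) then c.2 * cf k s m w (a + 1) r else 0)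

theorem cf_zero (k s : ℕ) (m : ℤ) (w : List (ℤ × ℤ)) (a : ℕ) : cf k s m w a 0 = 1 := by
  cases w <;> rfl

theorem cf_cons (k s : ℕ) (m : ℤ) (c : ℤ × ℤ) (w : List (ℤ × ℤ)) (a r : ℕ) :
    cf k s m (c :: w) a (r + 1) = cf k s m w a (r + 1) +
      (if a ≤ k ∧ m + pos w = a * (s + 1) then c.2 * cf k s m w (a + 1) r else 0) := rfl

theorem cf_vanish (k s : ℕ) (m : ℤ) (w : List (ℤ × ℤ)) : ∀ (a r : ℕ), k < a + r →
    cf k s m w a (r + 1) = 0 := by
  induction w with
  | nil => intro a r _; rfl
  | cons c w ih =>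
    intro a r h
    rw [cf_cons, ih a r h, zero_add]
    by_cases hc : a ≤ k ∧ m + pos w = a * (s + 1)
    · rw [if_pos hc]
      cases r with
      | zero => omega
      | succ r =>
        rw [ih (a + 1) r (by omega), mul_zero]
    · rw [if_neg hc]

theorem runB_snd (k s : ℕ) (m : ℤ) (x : ℕ → ℤ) (w : List (ℤ × ℤ)) : ∀ a : ℕ,
    (runB k s w (m, x)).2 a = ∑ r ∈ range (k + 2), cf k s m w a r * x (a + r) := by
  induction w with
  | nil =>
    intro a
    rw [Finset.sum_range_succ', Finset.sum_eq_zero]
    · change x a = 0 + 1 * x (a + 0)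
      simp
    · intro r _
      change 0 * _ = (0 : ℤ)
      rw [zero_mul]
  | cons c w ih =>
    intro a
    rw [runB_cons]
    change stp k s (runB k s w (m, x)).1 c.2 (runB k s w (m, x)).2 a = _
    unfold stp
    rw [runB_fst, ih, ih]
    change _ + (if a ≤ k ∧ m + pos w = a * (s + 1) then _ else _) = _
    rw [Finset.sum_range_succ' (fun r => cf k s m w a r * x (a + r)),
      Finset.sum_range_succ' (fun r => cf k s m (c :: w) a r * x (a + r))]
    simp only [cf_zero, cf_cons]
    by_cases hc : a ≤ k ∧ m + pos w = a * (s + 1)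
    · simp only [if_pos hc]
      have hv : cf k s m w (a + 1) (k + 1) = 0 := cf_vanish k s m w (a + 1) k (by omega)
      rw [Finset.sum_range_succ (fun r => cf k s m w (a + 1) r * x (a + 1 + r)),
        hv]
      simp only [zero_mul, add_zero]
      rw [Finset.mul_sum, add_right_comm, ← Finset.sum_add_distrib]
      congr 1
      refine Finset.sum_congr rfl fun r _ => ?_
      rw [show a + 1 + r = a + (r + 1) by ring]
      ring
    · simp only [if_neg hc, add_zero]

theorem triv_iff (k s : ℕ) (w : List (ℤ × ℤ)) :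
    TrivB k s w ↔ pos w = 0 ∧ ∀ (m : ℤ) (a r : ℕ), cf k s m w a (r + 1) = 0 := by
  constructor
  · intro h
    refine ⟨?_, ?_⟩
    · have := runB_fst k s w (0, fun _ => 0)
      rw [h] at this
      simpa using this.symm
    · intro m a r
      rcases Nat.lt_or_ge k (a + r) with h1 | h1
      · exact cf_vanish k s m w a r h1
      · have h2 := runB_snd k s m (Pi.single (a + (r + 1)) 1) w a
        rw [h, Finset.sum_eq_single (r + 1)] at h2
        · simpa using h2.symm
        · intro b _ hb
          rw [Pi.single_eq_of_ne (by omega), mul_zero]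
        · intro hb
          rw [Finset.mem_range] at hb
          omega
  · rintro ⟨h1, h2⟩ ⟨m, x⟩
    refine Prod.ext ?_ ?_
    · rw [runB_fst, h1]
      simp
    · funext a
      rw [runB_snd, Finset.sum_range_succ', Finset.sum_eq_zero]
      · rw [cf_zero]
        simp
      · intro r _
        rw [h2, zero_mul]

theorem abs_pos_le (w : List (ℤ × ℤ)) (hw : ∀ c ∈ w, Ok c) : |pos w| ≤ w.length := by
  induction w with
  | nil => simp [pos]
  | cons c w ih =>
    rw [pos_cons, List.length_cons]
    have h1 := ih (fun c hc => hw c (List.mem_cons_of_mem _ hc))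
    have h2 := (hw c (by simp)).1
    have h3 := abs_add_le c.1 (pos w)
    push_cast
    linarith

/-- Only starting positions in a bounded interval matter. -/
theorem cf_far (k s : ℕ) (m : ℤ) (w : List (ℤ × ℤ)) (hw : ∀ c ∈ w, Ok c)
    (hm : (w.length : ℤ) + k * (s + 1) < |m|) (a r : ℕ) : cf k s m w a (r + 1) = 0 := by
  induction w generalizing a r with
  | nil => rfl
  | cons c w ih =>
    rw [List.length_cons] at hm
    push_cast at hm
    have hw' : ∀ c ∈ w, Ok c := fun c hc => hw c (List.mem_cons_of_mem _ hc)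
    rw [cf_cons, ih hw' (by linarith), if_neg, add_zero]
    rintro ⟨ha, hp⟩
    have h1 := abs_pos_le w hw'
    have h2 : |m| ≤ |pos w| + |(a : ℤ) * (s + 1)| := by
      have : m = -pos w + a * (s + 1) := by linarith
      rw [this]
      refine (abs_add_le _ _).trans ?_
      rw [abs_neg]
    have h3 : |(a : ℤ) * (s + 1)| ≤ k * (s + 1) := by
      rw [abs_of_nonneg (by positivity)]
      have : (a : ℤ) ≤ k := by exact_mod_cast ha
      nlinarith [Int.natCast_nonneg s]
    linarith

/-- Position `a` of the block is not reached. -/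
theorem cf_unreached (k s : ℕ) (m : ℤ) (a : ℕ) (w : List (ℤ × ℤ))
    (h : ∀ v, v <:+ w → v ≠ w → m + pos v ≠ a * (s + 1)) (r : ℕ) :
    cf k s m w a (r + 1) = 0 := by
  induction w generalizing r with
  | nil => rfl
  | cons c w ih =>
    rw [cf_cons, ih, if_neg, add_zero]
    · rintro ⟨-, hp⟩
      exact h w (List.suffix_cons c w) (fun he => by
        have := congrArg List.length he
        simp at this) hp
    · intro v hv _
      refine h v (hv.trans (List.suffix_cons c w)) (fun he => ?_)
      have h1 := hv.length_le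
      have h2 := congrArg List.length he
      simp at h2
      omega

theorem pos_append (u v : List (ℤ × ℤ)) : pos (u ++ v) = pos u + pos v := by
  simp [pos]

/-- If the spacing is large, chains of length at least two vanish. -/
theorem cf_two (k s : ℕ) (m : ℤ) (w : List (ℤ × ℤ)) (hw : ∀ c ∈ w, Ok c)
    (hs : w.length ≤ s) (a r : ℕ) : cf k s m w a (r + 2) = 0 := by
  induction w with
  | nil => rfl
  | cons c w ih =>
    rw [List.length_cons] at hs
    have hw' : ∀ c ∈ w, Ok c := fun c hc => hw c (List.mem_cons_of_mem _ hc)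
    rw [cf_cons, ih hw' (by omega), zero_add]
    by_cases hc : a ≤ k ∧ m + pos w = a * (s + 1)
    · rw [if_pos hc, cf_unreached, mul_zero]
      rintro v ⟨u, hu⟩ - hp
      have h1 : pos w = pos u + pos v := by rw [← hu, pos_append]
      have h2 := abs_pos_le u (fun c hc => hw' c (by rw [← hu]; exact List.mem_append_left _ hc))
      have h3 : u.length ≤ w.length := by
        rw [← hu, List.length_append]
        omega
      have h4 : pos u = -((s : ℤ) + 1) := by
        have := hc.2
        push_cast at hp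
        linarith
      rw [h4, abs_neg, abs_of_nonneg (by positivity)] at h2
      have : ((u.length : ℕ) : ℤ) ≤ s := by exact_mod_cast (by omega : u.length ≤ s)
      linarith
    · rw [if_neg hc]

/-- Chains of length one are the same in all blocks. -/
theorem cf_one (k s s' : ℕ) (m : ℤ) (w : List (ℤ × ℤ)) (a : ℕ) (ha : a ≤ k) :
    cf k s m w a 1 = cf 0 s' (m - a * (s + 1)) w 0 1 := by
  induction w with
  | nil => rfl
  | cons c w ih =>
    rw [cf_cons, cf_cons, ih, cf_zero, cf_zero]
    congr 1
    by_cases hc : m + pos w = a * (s + 1)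
    · rw [if_pos ⟨ha, hc⟩, if_pos]
      refine ⟨le_rfl, ?_⟩
      push_cast
      linarith
    · rw [if_neg (fun h => hc h.2), if_neg]
      rintro ⟨-, h⟩
      apply hc
      push_cast at h
      linarith

/-- A block with large spacing adds nothing to block `0`. -/
theorem triv_far {k s s' : ℕ} {w : List (ℤ × ℤ)} (hw : ∀ c ∈ w, Ok c) (hs : w.length ≤ s)
    (h : TrivB 0 s' w) : TrivB k s w := by
  rw [triv_iff] at h ⊢
  refine ⟨h.1, fun m a r => ?_⟩
  cases r with
  | zero =>
    rcases Nat.lt_or_ge k a with ha | ha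
    · exact cf_vanish k s m w a 0 (by omega)
    · rw [cf_one k s s' m w a ha]
      exact h.2 _ _ _
  | succ r => exact cf_two k s m w hw hs a r

/-- The test function. -/
noncomputable def FF (K B : ℕ) (s : ℕ → ℕ) (w : List (ℤ × ℤ)) : ℤ :=
  ∑ k ∈ range K, (pos w ^ 2 + ∑ m ∈ Icc (-(B : ℤ)) B, ∑ a ∈ range K, ∑ r ∈ range K,
    cf k (s k) m w a (r + 1) ^ 2)

theorem FF_nonneg (K B : ℕ) (s : ℕ → ℕ) (w : List (ℤ × ℤ)) : 0 ≤ FF K B s w := by
  unfold FF
  positivity

theorem FF_eq_zero_iff {K B : ℕ} {s : ℕ → ℕ} {w : List (ℤ × ℤ)} (hw : ∀ c ∈ w, Ok c)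
    (hB : ∀ k < K, w.length + k * (s k + 1) ≤ B) :
    FF K B s w = 0 ↔ ∀ k < K, TrivB k (s k) w := by
  unfold FF
  rw [Finset.sum_eq_zero_iff_of_nonneg (fun k _ => by positivity)]
  refine forall_congr' fun k => ?_
  rw [Finset.mem_range]
  refine forall_congr' fun hk => ?_
  rw [triv_iff]
  have e1 : (0 : ℤ) ≤ pos w ^ 2 := by positivity
  have e2 : (0 : ℤ) ≤ ∑ m ∈ Icc (-(B : ℤ)) B, ∑ a ∈ range K, ∑ r ∈ range K,
    cf k (s k) m w a (r + 1) ^ 2 := by positivity
  constructor
  · intro h
    have h1 : pos w ^ 2 = 0 := by linarith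
    have h2 : ∑ m ∈ Icc (-(B : ℤ)) B, ∑ a ∈ range K, ∑ r ∈ range K,
      cf k (s k) m w a (r + 1) ^ 2 = 0 := by linarith
    refine ⟨by simpa using h1, fun m a r => ?_⟩
    rcases Nat.lt_or_ge k (a + r) with h3 | h3
    · exact cf_vanish k _ m w a r h3
    · by_cases hm : m ∈ Icc (-(B : ℤ)) B
      · rw [Finset.sum_eq_zero_iff_of_nonneg (fun _ _ => by positivity)] at h2
        have h4 := h2 m hm
        rw [Finset.sum_eq_zero_iff_of_nonneg (fun _ _ => by positivity)] at h4
        have h5 := h4 a (Finset.mem_range.mpr (by omega))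
        rw [Finset.sum_eq_zero_iff_of_nonneg (fun _ _ => by positivity)] at h5
        have h6 := h5 r (Finset.mem_range.mpr (by omega))
        simpa using h6
      · apply cf_far k (s k) m w hw
        rw [Finset.mem_Icc, not_and_or, not_le, not_le] at hm
        have h7 := hB k hk
        have h8 : (w.length : ℤ) + k * (s k + 1) ≤ B := by exact_mod_cast h7
        refine lt_of_le_of_lt h8 ?_
        rcases hm with hm | hm
        · rw [lt_abs]
          right
          linarith
        · rw [lt_abs]
          left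
          exact hm
  · rintro ⟨h1, h2⟩
    rw [h1]
    simp [h2]

end Pool.Agent.L5helper58.WP
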