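import Mathlib

/-!
# A regular language: exclusive ors of conjunctions of exclusive ors
-/

set_option autoImplicit false

namespace Pool.Agent.L5helper58.WP

open Finset

/-- The transitions: the letters `0`, `1` are bits, `2` ends an exclusive or of bits, `3` ends a
conjunction. The state holds the exclusive or of the finished conjunctions, the conjunction so far
and the exclusive or so far. -/
def stepR (q : Bool × Bool × Bool) (c : Fin 4) : Bool × Bool × Bool :=
  if c = 0 then q
  else if c = 1 then (q.1, q.2.1, !q.2.2)
  else if c = 2 then (q.1, q.2.1 && q.2.2, false)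
  else (xor q.1 q.2.1, true, false)

/-- The automaton. -/
def autR : DFA (Fin 4) (Bool × Bool × Bool) where
  step := stepR
  start := (false, true, false)
  accept := {q | q.1 = true}

/-- The regular language. -/
def LL : Language (Fin 4) := autR.accepts

theorem LL_regular : LL.IsRegular := ⟨Bool × Bool × Bool, inferInstance, autR, rfl⟩

theorem mem_LL (U : List (Fin 4)) :
    U ∈ LL ↔ (U.foldl stepR (false, true, false)).1 = true := by
  unfold LL
  rw [DFA.mem_accepts]
  rfl

/-- A bit as a letter. -/
def bitL (b : Bool) : Fin 4 := if b then 1 else 0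

/-- The exclusive or over a list. -/
def xorL {β : Type} (L : List β) (g : β → Bool) : Bool := L.foldr (fun b acc => xor (g b) acc) false

theorem fold_bits {β : Type} (L : List β) (g : β → Bool) (s a p : Bool) :
    (L.map (fun b => bitL (g b))).foldl stepR (s, a, p) = (s, a, xor p (xorL L g)) := by
  induction L generalizing p with
  | nil => simp [xorL]
  | cons b L ih =>
    rw [List.map_cons, List.foldl_cons]
    have : stepR (s, a, p) (bitL (g b)) = (s, a, xor p (g b)) := by
      unfold stepR bitL
      cases g b <;> simp
    rw [this, ih]
    unfold xorL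
    rw [List.foldr_cons, Bool.xor_assoc]

theorem fold_row {β : Type} (L : List β) (f : β → List (Fin 4)) (g : β → Bool)
    (h : ∀ b ∈ L, ∀ s a, (f b).foldl stepR (s, a, false) = (s, a && g b, false)) (s a : Bool) :
    (L.flatMap f).foldl stepR (s, a, false) = (s, a && L.all g, false) := by
  induction L generalizing a with
  | nil => simp
  | cons b L ih =>
    rw [List.flatMap_cons, List.foldl_append, h b (by simp), ih (fun b hb => h b (by simp [hb]))]
    rw [List.all_cons, Bool.and_assoc]

theorem fold_rows {β : Type} (L : List β) (f : β → List (Fin 4)) (g : β → Bool)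
    (h : ∀ b ∈ L, ∀ s, (f b).foldl stepR (s, true, false) = (xor s (g b), true, false)) (s : Bool) :
    (L.flatMap f).foldl stepR (s, true, false) = (xor s (xorL L g), true, false) := by
  induction L generalizing s with
  | nil => simp [xorL]
  | cons b L ih =>
    rw [List.flatMap_cons, List.foldl_append, h b (by simp), ih (fun b hb => h b (by simp [hb]))]
    unfold xorL
    rw [List.foldr_cons, Bool.xor_assoc]

/-! ### The template -/

/-- The variables. -/
abbrev Vr (M κ r : ℕ) : Type := Fin M × Fin κ × Fin r

/-- The template: places for the bits and separators. -/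
def tpl (M κ r : ℕ) : List (Vr M κ r ⊕ Fin 4) :=
  (List.finRange M).flatMap (fun i =>
    (List.finRange κ).flatMap (fun j =>
      (List.finRange r).map (fun l => Sum.inl (i, j, l)) ++ [Sum.inr 2]) ++ [Sum.inr 3])

/-- Filling in the bits. -/
def fil {V : Type} (x : V → Bool) : V ⊕ Fin 4 → Fin 4
  | Sum.inl v => bitL (x v)
  | Sum.inr c => c

/-- The word. -/
def UU {M κ r : ℕ} (x : Vr M κ r → Bool) : List (Fin 4) := (tpl M κ r).map (fil x)

theorem length_tpl (M κ r : ℕ) : (tpl M κ r).length = M * (κ * (r + 1) + 1) := by
  unfold tpl
  simp [List.length_flatMap]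

theorem UU_eq {M κ r : ℕ} (x : Vr M κ r → Bool) :
    UU x = (List.finRange M).flatMap (fun i =>
      (List.finRange κ).flatMap (fun j =>
        (List.finRange r).map (fun l => bitL (x (i, j, l))) ++ [2]) ++ [3]) := by
  unfold UU tpl
  rw [List.map_flatMap]
  congr 1
  funext i
  rw [List.map_append, List.map_flatMap]
  congr 2
  funext j
  rw [List.map_append, List.map_map]
  rfl

theorem UU_mem {M κ r : ℕ} (x : Vr M κ r → Bool) :
    UU x ∈ LL ↔ xorL (List.finRange M) (fun i => (List.finRange κ).all (fun j =>
      xorL (List.finRange r) (fun l => x (i, j, l)))) = true := by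
  rw [mem_LL, UU_eq]
  rw [fold_rows (List.finRange M) _ (fun i => (List.finRange κ).all (fun j =>
      xorL (List.finRange r) (fun l => x (i, j, l))))]
  · simp
  · intro i _ s
    rw [List.foldl_append, fold_row (List.finRange κ) _ (fun j =>
      xorL (List.finRange r) (fun l => x (i, j, l)))]
    · rw [Bool.true_and]
      rfl
    · intro j _ s a
      rw [List.foldl_append, fold_bits, Bool.false_xor]
      rfl

theorem chi_xorL {M κ : ℕ} (y : Fin κ → Fin M → Bool) :
    (∏ i : Fin M, (if ∀ l, y l i = true then (-1 : ℝ) else 1)) = -1 ↔
      xorL (List.finRange M) (fun i => (List.finRange κ).all (fun j => y j i)) = true := by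
  rw [Fin.prod_univ_def]
  have key : ∀ L : List (Fin M), (L.map (fun i => if ∀ l, y l i = true then (-1 : ℝ) else 1)).prod =
      if xorL L (fun i => (List.finRange κ).all (fun j => y j i)) = true then -1 else 1 := by
    intro L
    induction L with
    | nil => simp [xorL]
    | cons i L ih =>
      rw [List.map_cons, List.prod_cons, ih]
      unfold xorL
      rw [List.foldr_cons]
      have e : (List.finRange κ).all (fun j => y j i) = decide (∀ l, y l i = true) := by
        rw [Bool.eq_iff_iff]
        simp
      beta_reduce
      rw [e]
      by_cases h : ∀ l, y l i = true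
      · simp only [h, implies_true, if_true, decide_true, Bool.true_xor]
        by_cases h2 : List.foldr (fun b acc => ((List.finRange κ).all fun j => y j b) ^^ acc)
            false L = true
        · simp [h2]
        · simp [h2]
      · simp only [h, if_false, decide_false, Bool.false_xor, one_mul]
  rw [key]
  constructor
  · intro h
    by_contra h2
    rw [if_neg h2] at h
    norm_num at h
  · intro h
    rw [if_pos h]

/-! ### Parities and one free bit -/

/-- Bits in the field with two elements. -/
def toZ (b : Bool) : ZMod 2 := if b then 1 else 0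

theorem toZ_xor (a b : Bool) : toZ (xor a b) = toZ a + toZ b := by
  cases a <;> cases b <;> decide

theorem toZ_inj {a b : Bool} (h : toZ a = toZ b) : a = b := by
  revert h
  cases a <;> cases b <;> decide

theorem toZ_xorL {r : ℕ} (f : Fin r → Bool) :
    toZ (xorL (List.finRange r) f) = ∑ l, toZ (f l) := by
  rw [Fin.sum_univ_def]
  generalize List.finRange r = L
  induction L with
  | nil => rfl
  | cons l L ih =>
    rw [List.map_cons, List.sum_cons, ← ih]
    unfold xorL
    rw [List.foldr_cons, toZ_xor]

theorem xorL_free {r : ℕ} (f : Fin r → Bool) (st : Fin r) (v : Bool) :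
    xorL (List.finRange r) (fun l => if l = st then
      xor v (xorL (List.finRange r) (fun l => if l = st then false else f l)) else f l) = v := by
  apply toZ_inj
  rw [toZ_xorL, ← Finset.add_sum_erase Finset.univ _ (Finset.mem_univ st)]
  rw [if_pos rfl, toZ_xor, toZ_xorL, ← Finset.add_sum_erase Finset.univ _ (Finset.mem_univ st)]
  rw [if_pos rfl]
  have e : ∀ b : Bool, ∑ l ∈ Finset.univ.erase st, toZ (if l = st then b else f l) =
      ∑ l ∈ Finset.univ.erase st, toZ (f l) := by
    intro b
    refine Finset.sum_congr rfl fun l hl => ?_
    rw [if_neg (Finset.ne_of_mem_erase hl)]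
  rw [e, e]
  have h2 : ∀ z : ZMod 2, z + z = 0 := by decide
  have h3 : toZ false = 0 := rfl
  rw [h3, zero_add, add_assoc, h2, add_zero]

end Pool.Agent.L5helper58.WP
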