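import Pool.Agent.L5helper58.WP.Disc
import Pool.Agent.L5helper58.WP.Reg
import Pool.Agent.H568R2.Collapse

/-!
# No reduction of the regular language to short word problems by circuits of constant depth
-/

set_option autoImplicit false

namespace Pool.Agent.L5helper58.WP

open Finset DomAC0 H568R2

/-- The bits by which a word over a finite alphabet is given to a circuit: the bit `(i, a)` says
whether the letter `i` is `a`. -/
def enc {A : Type} [DecidableEq A] (n : ℕ) (U : List A) : Fin n × A → Bool :=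
  fun p => decide (U[p.1.val]? = some p.2)

theorem enc_junta {M κ r n : ℕ} (p : Fin n × Fin 4) :
    Junta 1 (fun x : Vr M κ r → Bool => enc n (UU x) p) := by
  classical
  unfold enc UU
  rcases h : (tpl M κ r)[p.1.val]? with _ | e
  · refine ⟨∅, by simp, fun x y _ => ?_⟩
    simp only [List.getElem?_map, h, Option.map_none]
  · rcases e with v | c
    · refine ⟨{v}, by simp, fun x y hxy => ?_⟩
      simp only [List.getElem?_map, h, Option.map_some, fil, hxy v (Finset.mem_singleton_self v)]
    · refine ⟨∅, by simp, fun x y _ => ?_⟩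
      simp only [List.getElem?_map, h, Option.map_some, fil]

theorem map_getD_finRange {α : Type} (d : α) {n : ℕ} (L : List α) (h : L.length = n) :
    (List.finRange n).map (fun t => L.getD t.val d) = L := by
  apply List.ext_getElem
  · simp [h]
  · intro i h1 h2
    simp [List.getElem?_eq_getElem h2]

section Rand

variable {M κ r : ℕ}

/-- The probability that a group of places has no star. -/
theorem prob_nostar {p : ℝ} (i : Fin M) (j : Fin κ) :
    Ex (wq p) (fun ρ : Restr (Vr M κ r) => if ∀ l, ρ (i, j, l) ≠ none then (1 : ℝ) else 0) =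
      (1 - p) ^ r := by
  classical
  have h := Ex_indep (I := Vr M κ r) (w := wq p) (wq_sum p) (fun a => a ≠ none)
    (Finset.univ.image (fun l : Fin r => ((i, j, l) : Vr M κ r))) (fun _ => 1) (by simp)
  have hcard : (Finset.univ.image (fun l : Fin r => ((i, j, l) : Vr M κ r))).card = r := by
    rw [Finset.card_image_of_injective]
    · simp
    · intro l l' hl
      simpa using hl
  rw [hcard, Ex_const (wq_sum p), mul_one] at h
  have h2 : ∑ a ∈ Finset.univ.filter (fun a : Option Bool => a ≠ none), wq p a = 1 - p := by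
    have : (Finset.univ.filter (fun a : Option Bool => a ≠ none)) = {some true, some false} := by
      decide
    rw [this, Finset.sum_pair (by decide)]
    unfold wq
    ring
  rw [h2] at h
  rw [← h]
  congr 1
  funext ρ
  rw [one_mul]
  refine if_congr ?_ rfl rfl
  simp only [Finset.mem_image, Finset.mem_univ, true_and]
  constructor
  · rintro hl v ⟨l, rfl⟩
    exact hl l
  · intro hv l
    exact hv _ ⟨l, rfl⟩

open Classical in
theorem exists_restr {n : ℕ} (C : Circuit (Fin n × Fin 4)) {q : ℝ} (h0 : 0 ≤ q) (h1 : q ≤ 1 / 3)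
    {k : ℕ} (hk : 1 ≤ k) (D : ℕ)
    (hP : (D : ℝ) * ((C.size * (n * 4 + C.size + 1) : ℕ) : ℝ) * (4 ^ (KK k D) * (3 * q)) ^ k +
      (M * κ : ℕ) * (1 - q ^ D) ^ r < 1) :
    ∃ ρ : Restr (Vr M κ r), Good C (fun x => enc n (UU x)) k D ρ ∧
      ∀ i j, ∃ l, ρ (i, j, l) = none := by
  by_contra hcon
  push Not at hcon
  have hc := collapse (I := Vr M κ r) C (fun x => enc n (UU x)) (fun p => enc_junta p) h0 h1 hk D
    D le_rfl
  have hcard : Fintype.card (Fin n × Fin 4) = n * 4 := by simp
  rw [hcard] at hc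
  have hpt : ∀ ρ : Restr (Vr M κ r), (1 : ℝ) ≤
      (if ¬ Good C (fun x => enc n (UU x)) k D ρ then (1 : ℝ) else 0) +
      ∑ ij ∈ (Finset.univ : Finset (Fin M × Fin κ)),
        (if ∀ l, ρ (ij.1, ij.2, l) ≠ none then (1 : ℝ) else 0) := by
    intro ρ
    have hnn : ∀ ij ∈ (Finset.univ : Finset (Fin M × Fin κ)),
        (0 : ℝ) ≤ (if ∀ l, ρ (ij.1, ij.2, l) ≠ none then (1 : ℝ) else 0) := by
      intro ij _
      split_ifs <;> norm_num
    by_cases hG : Good C (fun x => enc n (UU x)) k D ρ
    · obtain ⟨i, j, hij⟩ := hcon ρ hG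
      have h2 := Finset.single_le_sum hnn (Finset.mem_univ (i, j))
      rw [if_pos hij] at h2
      rw [if_neg (not_not.mpr hG), zero_add]
      exact h2
    · rw [if_pos hG]
      have := Finset.sum_nonneg hnn
      linarith
  have hp0 : 0 ≤ q ^ D := pow_nonneg h0 D
  have hp1 : q ^ D ≤ 1 := pow_le_one₀ h0 (by linarith)
  have h3 := Ex_mono (wq_nonneg hp0 hp1) hpt
  rw [Ex_const (wq_sum (q ^ D)), Ex_add, Ex_sum] at h3
  simp only [prob_nostar] at h3
  rw [Finset.sum_const, Finset.card_univ, nsmul_eq_mul, Fintype.card_prod, Fintype.card_fin,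
    Fintype.card_fin] at h3
  linarith

end Rand

/-- The assignment to the free places. -/
def zz {M κ r : ℕ} (ρ : Restr (Vr M κ r)) (st : Fin M → Fin κ → Fin r)
    (y : Fin κ → Fin M → Bool) : Vr M κ r → Bool := fun v =>
  if v.2.2 = st v.1 v.2.1 then
    xor (y v.2.1 v.1) (xorL (List.finRange r) (fun l => if l = st v.1 v.2.1 then false else
      (ρ (v.1, v.2.1, l)).getD false))
  else false

theorem zz_mem {M κ r : ℕ} {ρ : Restr (Vr M κ r)} {st : Fin M → Fin κ → Fin r}
    (hst : ∀ i j, ρ (i, j, st i j) = none) (y : Fin κ → Fin M → Bool) :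
    UU (ov ρ (zz ρ st y)) ∈ LL ↔ chi Finset.univ y = -1 := by
  unfold chi
  rw [UU_mem, chi_xorL]
  have h : ∀ i j, xorL (List.finRange r) (fun l => ov ρ (zz ρ st y) (i, j, l)) = y j i := by
    intro i j
    have := xorL_free (fun l => (ρ (i, j, l)).getD false) (st i j) (y j i)
    rw [← this]
    congr 1
    funext l
    unfold ov zz
    simp only
    by_cases hl : l = st i j
    · subst hl
      rw [hst, if_pos rfl, if_pos rfl]
      simp only [Option.getD_none]
    · rw [if_neg hl, if_neg hl]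
  simp only [h]

theorem core {K : ℕ} (s : ℕ → ℕ) (D b ℓ k M r n S Nn B : ℕ) (q : ℝ) (h0 : 0 ≤ q)
    (h1 : q ≤ 1 / 3) (hk : 1 ≤ k)
    (hn : n = M * ((b * KK k D + 1) * (r + 1) + 1))
    (hB : ∀ j < K, Nn * ℓ + j * (s j + 1) ≤ B)
    (hP : (D : ℝ) * ((S * (n * 4 + S + 1) : ℕ) : ℝ) * (4 ^ (KK k D) * (3 * q)) ^ k +
      (M * (b * KK k D + 1) : ℕ) * (1 - q ^ D) ^ r < 1)
    (hQ : (2 * Qb (b * KK k D + 1) K B (Nn * ℓ) + 1) * rho (b * KK k D) ^ M < 1)
    (W : (Fin b → Bool) → List (ℤ × ℤ)) (hW : ∀ σ, (W σ).length = ℓ)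
    (hW' : ∀ σ, ∀ c ∈ W σ, Ok c)
    (C : Circuit (Fin n × Fin 4)) (N : ℕ) (out : Fin N → Fin b → (Fin n × Fin 4) ⊕ Fin C.size)
    (hS : C.size ≤ S) (hN : N ≤ Nn) (hD : ∀ i j, C.nodeDepth (out i j) ≤ D) :
    ¬ ∀ U : List (Fin 4), U.length = n → (U ∈ LL ↔ ∀ j < K, TrivB j (s j)
      ((List.finRange N).flatMap (fun i => W (fun j => C.nodeVal (enc n U) (out i j))))) := by
  classical
  intro hred
  obtain ⟨κ, hκ⟩ : ∃ κ, κ = b * KK k D + 1 := ⟨_, rfl⟩
  obtain ⟨ρ, hG, hstar⟩ := exists_restr (M := M) (κ := b * KK k D + 1) (r := r) C h0 h1 hk D (by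
    refine lt_of_le_of_lt ?_ hP
    have hcast : ((C.size * (n * 4 + C.size + 1) : ℕ) : ℝ) ≤ ((S * (n * 4 + S + 1) : ℕ) : ℝ) := by
      have : C.size * (n * 4 + C.size + 1) ≤ S * (n * 4 + S + 1) := by
        gcongr
      exact_mod_cast this
    gcongr)
  choose st hst using hstar
  -- the nodes as functions of `y`
  let nd : Fin N → (Fin (b * KK k D + 1) → Fin M → Bool) → Fin b → Bool := fun i y j =>
    C.nodeVal (enc n (UU (ov ρ (zz ρ st y)))) (out i j)
  have hplay : ∀ i : Fin N, ∃ l : Fin (b * KK k D + 1), Indep l (nd i) := by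
    intro i
    have hj : ∀ j : Fin b, ∃ A : Finset (Vr M (b * KK k D + 1) r), A.card ≤ KK k D ∧
        DepOn (rs (fun x => C.nodeVal (enc n (UU x)) (out i j)) ρ) A := fun j =>
      node_junta C (fun x => enc n (UU x)) (fun p => enc_junta p) hk hG (out i j) (hD i j)
    choose A hA1 hA2 using hj
    let P : Finset (Fin (b * KK k D + 1)) :=
      (Finset.univ.biUnion A).image (fun v => v.2.1)
    have hPcard : P.card < Fintype.card (Fin (b * KK k D + 1)) := by
      rw [Fintype.card_fin]
      have e1 : P.card ≤ (Finset.univ.biUnion A).card := Finset.card_image_le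
      have e2 : (Finset.univ.biUnion A).card ≤ ∑ j : Fin b, (A j).card := Finset.card_biUnion_le
      have e3 : ∑ j : Fin b, (A j).card ≤ ∑ _j : Fin b, KK k D :=
        Finset.sum_le_sum fun j _ => hA1 j
      rw [Finset.sum_const, Finset.card_univ, Fintype.card_fin, smul_eq_mul] at e3
      omega
    have : ∃ l, l ∉ P := by
      by_contra hcon
      push Not at hcon
      have : P = Finset.univ := Finset.eq_univ_iff_forall.mpr hcon
      rw [this, Finset.card_univ] at hPcard
      exact lt_irrefl _ hPcard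
    obtain ⟨l, hl⟩ := this
    refine ⟨l, fun y y' hy => ?_⟩
    funext j
    refine hA2 j _ _ (fun v hv => ?_)
    have hvl : v.2.1 ≠ l := by
      intro h
      apply hl
      rw [← h]
      exact Finset.mem_image_of_mem _ (Finset.mem_biUnion.mpr ⟨j, Finset.mem_univ j, hv⟩)
    unfold zz
    rw [hy v.2.1 hvl]
  choose pl hpl using hplay
  let ws : List (Fin (b * KK k D + 1) × ((Fin (b * KK k D + 1) → Fin M → Bool) → ℤ × ℤ)) :=
    (List.finRange N).flatMap (fun i => (List.finRange ℓ).map (fun t =>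
      (pl i, fun y => (W (nd i y)).getD t.val (0, 0))))
  have hev : ∀ y, ev ws y = (List.finRange N).flatMap (fun i => W (nd i y)) := by
    intro y
    unfold ev
    simp only [ws]
    rw [List.map_flatMap]
    congr 1
    funext i
    rw [List.map_map]
    exact map_getD_finRange (0, 0) (W (nd i y)) (hW _)
  have hlen : ws.length = N * ℓ := by
    simp [ws, List.length_flatMap]
  have hlen' : ws.length ≤ Nn * ℓ := by
    rw [hlen]
    exact Nat.mul_le_mul_right _ hN
  have hok : ∀ f ∈ ws, ∀ y, Ok (f.2 y) := by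
    intro f hf y
    simp only [ws, List.mem_flatMap, List.mem_map] at hf
    obtain ⟨i, -, t, -, rfl⟩ := hf
    simp only
    have ht : t.val < (W (nd i y)).length := by
      rw [hW]
      exact t.2
    rw [List.getD_eq_getElem _ _ ht]
    exact hW' _ _ (List.getElem_mem ht)
  have hind : ∀ f ∈ ws, Indep f.1 f.2 := by
    intro f hf y y' hy
    simp only [ws, List.mem_flatMap, List.mem_map] at hf
    obtain ⟨i, -, t, -, rfl⟩ := hf
    simp only at hy ⊢
    rw [hpl i y y' hy]
  refine no_short (k := b * KK k D) (M := M) (K := K) (B := B) s ws hlen' hok hind (fun y => ?_) hQ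
  have hokev : ∀ c ∈ ev ws y, Ok c := by
    intro c hc
    unfold ev at hc
    rw [List.mem_map] at hc
    obtain ⟨f, hf, rfl⟩ := hc
    exact hok f hf y
  rw [FF_eq_zero_iff hokev, hev, ← zz_mem hst y]
  · refine (hred (UU (ov ρ (zz ρ st y))) ?_).symm
    unfold UU
    rw [List.length_map, length_tpl, hn]
  · intro j hj
    have : (ev ws y).length ≤ Nn * ℓ := by
      unfold ev
      rw [List.length_map]
      exact hlen'
    have := hB j hj
    omega

end Pool.Agent.L5helper58.WP
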