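import Mathlib

/-!
# Cylinder norms and the number-on-the-forehead discrepancy of generalized inner products
-/

set_option autoImplicit false

namespace Pool.Agent.L5helper58.WP

open Finset

section Cyl

variable {κ : ℕ} {Y : Type}

/-- `φ` does not depend on the coordinate `l`. -/
def Indep {Z : Type} (l : Fin κ) (φ : (Fin κ → Y) → Z) : Prop :=
  ∀ x x', (∀ j, j ≠ l → x j = x' j) → φ x = φ x'

/-- `F` is a combination, with coefficients of total size at most `c`, of products of bounded
functions each of which does not depend on its coordinate. -/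
inductive Cyl : ℝ → ((Fin κ → Y) → ℝ) → Prop
  | base (φ : Fin κ → (Fin κ → Y) → ℝ) (h1 : ∀ l x, |φ l x| ≤ 1) (h2 : ∀ l, Indep l (φ l)) :
      Cyl 1 (fun x => ∏ l, φ l x)
  | add {c c' : ℝ} {F F' : (Fin κ → Y) → ℝ} : Cyl c F → Cyl c' F' →
      Cyl (c + c') (fun x => F x + F' x)
  | smul {c : ℝ} {F : (Fin κ → Y) → ℝ} (a : ℝ) : Cyl c F → Cyl (|a| * c) (fun x => a * F x)
  | mono {c c' : ℝ} {F : (Fin κ → Y) → ℝ} : Cyl c F → c ≤ c' → Cyl c' F

theorem Cyl.nonneg {c : ℝ} {F : (Fin κ → Y) → ℝ} (h : Cyl c F) : 0 ≤ c := by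
  induction h with
  | base φ h1 h2 => norm_num
  | add _ _ h1 h2 => exact add_nonneg h1 h2
  | smul a _ h => exact mul_nonneg (abs_nonneg a) h
  | mono _ h1 h2 => exact h2.trans h1

theorem Cyl.congr {c c' : ℝ} {F F' : (Fin κ → Y) → ℝ} (h : Cyl c F) (hc : c ≤ c')
    (hF : ∀ x, F' x = F x) : Cyl c' F' := by
  have : F' = F := funext hF
  rw [this]
  exact h.mono hc

theorem Cyl.mul {c c' : ℝ} {F F' : (Fin κ → Y) → ℝ} (h : Cyl c F) (h' : Cyl c' F') :
    Cyl (c * c') (fun x => F x * F' x) := by
  induction h with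
  | base φ h1 h2 =>
    induction h' with
    | base ψ h3 h4 =>
      refine (Cyl.base (fun l x => φ l x * ψ l x) (fun l x => ?_) (fun l => ?_)).congr
        (by norm_num) (fun x => ?_)
      · rw [abs_mul]
        exact mul_le_one₀ (h1 l x) (abs_nonneg _) (h3 l x)
      · intro x x' hx
        simp only
        rw [h2 l x x' hx, h4 l x x' hx]
      · rw [Finset.prod_mul_distrib]
    | add _ _ ih1 ih2 =>
      exact (ih1.add ih2).congr (le_of_eq (by ring)) (fun x => by ring)
    | smul a _ ih =>
      exact (ih.smul a).congr (le_of_eq (by ring)) (fun x => by ring)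
    | mono _ hc ih => exact ih.mono (by linarith)
  | add _ _ ih1 ih2 =>
    exact (ih1.add ih2).congr (le_of_eq (by ring)) (fun x => by ring)
  | smul a _ ih =>
    exact (ih.smul a).congr (le_of_eq (by ring)) (fun x => by ring)
  | mono _ hc ih => exact ih.mono (mul_le_mul_of_nonneg_right hc h'.nonneg)

theorem Cyl.single (l : Fin κ) (f : (Fin κ → Y) → ℝ) (h1 : ∀ x, |f x| ≤ 1) (h2 : Indep l f) :
    Cyl 1 f := by
  refine (Cyl.base (fun l' x => if l' = l then f x else 1) (fun l' x => ?_)
    (fun l' => ?_)).congr le_rfl (fun x => ?_)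
  · by_cases h : l' = l
    · rw [if_pos h]
      exact h1 x
    · rw [if_neg h]
      norm_num
  · intro x x' hx
    by_cases h : l' = l
    · subst h
      simp only [if_true]
      exact h2 x x' hx
    · simp only [if_neg h]
  · rw [Finset.prod_ite_eq' Finset.univ l (fun _ => f x)]
    simp

theorem Cyl.zero (l : Fin κ) : Cyl (κ := κ) (Y := Y) 0 (fun _ => (0 : ℝ)) := by
  have h := (Cyl.single (Y := Y) l (fun _ => 0) (by simp) (fun _ _ _ => rfl)).smul 0
  exact h.congr (by simp) (by simp)

theorem Cyl.sum (l : Fin κ) {T : Type} (s : Finset T) (c : T → ℝ) (F : T → (Fin κ → Y) → ℝ)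
    (h : ∀ t ∈ s, Cyl (c t) (F t)) : Cyl (∑ t ∈ s, c t) (fun x => ∑ t ∈ s, F t x) := by
  classical
  induction s using Finset.induction_on with
  | empty => exact (Cyl.zero l).congr (by simp) (by simp)
  | insert t s ht ih =>
    have h1 := h t (Finset.mem_insert_self _ _)
    have h2 := ih (fun t' ht' => h t' (Finset.mem_insert_of_mem ht'))
    exact (h1.add h2).congr (le_of_eq (by rw [Finset.sum_insert ht]))
      (fun x => by rw [Finset.sum_insert ht])

theorem Cyl.bound [Fintype Y] [DecidableEq Y] (χ : (Fin κ → Y) → ℝ) (Δ : ℝ)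
    (hΔ : ∀ φ : Fin κ → (Fin κ → Y) → ℝ, (∀ l x, |φ l x| ≤ 1) → (∀ l, Indep l (φ l)) →
      |∑ x, χ x * ∏ l, φ l x| ≤ Δ) {c : ℝ} {F : (Fin κ → Y) → ℝ} (h : Cyl c F) :
    |∑ x, χ x * F x| ≤ c * Δ := by
  have h0 : 0 ≤ Δ := (abs_nonneg _).trans (hΔ (fun _ _ => 0) (by simp) (fun _ _ _ _ => rfl))
  induction h with
  | base φ h1 h2 =>
    rw [one_mul]
    exact hΔ φ h1 h2
  | @add c c' F F' _ _ ih1 ih2 =>
    have e : ∑ x, χ x * (F x + F' x) = ∑ x, χ x * F x + ∑ x, χ x * F' x := by
      rw [← Finset.sum_add_distrib]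
      exact Finset.sum_congr rfl fun x _ => by ring
    rw [e]
    refine (abs_add_le _ _).trans ?_
    rw [add_mul]
    exact add_le_add ih1 ih2
  | @smul c F a _ ih =>
    have e : ∑ x, χ x * (a * F x) = a * ∑ x, χ x * F x := by
      rw [Finset.mul_sum]
      exact Finset.sum_congr rfl fun x _ => by ring
    rw [e, abs_mul, mul_assoc]
    exact mul_le_mul_of_nonneg_left ih (abs_nonneg a)
  | mono _ hc ih => exact ih.trans (mul_le_mul_of_nonneg_right hc h0)

/-! ### Exact counts -/

/-- The indicator that a sum of small integer functions has a given value. -/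
theorem Cyl.count (l₀ : Fin κ) (ws : List (Fin κ × ((Fin κ → Y) → ℤ)))
    (h1 : ∀ f ∈ ws, ∀ x, |f.2 x| ≤ 1) (h2 : ∀ f ∈ ws, Indep f.1 f.2) (z₀ : ℤ) :
    Cyl ((2 * (ws.length : ℝ) + 1) ^ κ)
      (fun x => if (ws.map (fun f => f.2 x)).sum = z₀ then (1 : ℝ) else 0) := by
  classical
  let S : Fin κ → (Fin κ → Y) → ℤ := fun l x =>
    ((ws.filter (fun f => f.1 = l)).map (fun f => f.2 x)).sum
  have hS1 : ∀ x, ∑ l, S l x = (ws.map (fun f => f.2 x)).sum := by
    intro x
    clear h1 h2
    induction ws with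
    | nil => simp [S]
    | cons f ws ih =>
      rw [List.map_cons, List.sum_cons, ← ih]
      have : ∀ l, ((List.filter (fun f => decide (f.1 = l)) (f :: ws)).map (fun f => f.2 x)).sum =
          (if l = f.1 then f.2 x else 0) +
          ((List.filter (fun f => decide (f.1 = l)) ws).map (fun f => f.2 x)).sum := by
        intro l
        by_cases h : f.1 = l
        · rw [List.filter_cons_of_pos (by simpa using h), if_pos h.symm]
          simp
        · rw [List.filter_cons_of_neg (by simpa using h), if_neg (fun h' => h h'.symm)]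
          simp
      simp only [S]
      rw [Finset.sum_congr rfl (fun l _ => this l), Finset.sum_add_distrib,
        Finset.sum_ite_eq' Finset.univ f.1 (fun _ => f.2 x)]
      simp
  have hS2 : ∀ l x, |S l x| ≤ ws.length := by
    intro l x
    have key : ∀ v : List (Fin κ × ((Fin κ → Y) → ℤ)), (∀ f ∈ v, |f.2 x| ≤ 1) →
        |(v.map (fun f => f.2 x)).sum| ≤ v.length := by
      intro v hv
      induction v with
      | nil => simp
      | cons f v ih =>
        rw [List.map_cons, List.sum_cons, List.length_cons]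
        have e1 := ih (fun g hg => hv g (List.mem_cons_of_mem _ hg))
        have e2 := hv f (by simp)
        have e3 := abs_add_le (f.2 x) ((v.map (fun f => f.2 x)).sum)
        push_cast
        linarith
    refine (key _ (fun f hf => h1 f (List.mem_of_mem_filter hf) x)).trans ?_
    exact_mod_cast List.length_filter_le _ _
  have hS3 : ∀ l, Indep l (S l) := by
    intro l x x' hx
    simp only [S]
    congr 1
    refine List.map_congr_left fun f hf => ?_
    have hl : f.1 = l := by simpa using List.of_mem_filter hf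
    have := h2 f (List.mem_of_mem_filter hf)
    rw [hl] at this
    exact this x x' hx
  -- the sum over the possible values
  let n : ℤ := ws.length
  let P : Finset (Fin κ → ℤ) := Fintype.piFinset (fun _ => Finset.Icc (-n) n)
  have hP : (P.card : ℝ) = (2 * (ws.length : ℝ) + 1) ^ κ := by
    simp only [P, Fintype.card_piFinset, Int.card_Icc, Finset.prod_const, Finset.card_univ,
      Fintype.card_fin, n]
    have : (((ws.length : ℤ) + 1 - -(ws.length : ℤ)).toNat : ℝ) = 2 * (ws.length : ℝ) + 1 := by
      have h : ((ws.length : ℤ) + 1 - -(ws.length : ℤ)) = ((2 * ws.length + 1 : ℕ) : ℤ) := by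
        push_cast
        ring
      rw [h, Int.toNat_natCast]
      push_cast
      ring
    push_cast
    rw [this]
  have hc : ∀ z ∈ P, Cyl (κ := κ) (Y := Y) 1 (fun x => (if ∑ l, z l = z₀ then (1 : ℝ) else 0) *
      ∏ l, (if S l x = z l then (1 : ℝ) else 0)) := by
    intro z _
    have hb := Cyl.base (κ := κ) (Y := Y) (fun l x => if S l x = z l then (1 : ℝ) else 0)
      (fun l x => by
        split_ifs <;> simp) (fun l x x' hx => by
        beta_reduce
        rw [hS3 l x x' hx])
    refine (hb.smul (if ∑ l, z l = z₀ then (1 : ℝ) else 0)).mono ?_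
    split_ifs <;> simp
  have hsum := Cyl.sum l₀ P (fun _ => 1) _ hc
  refine hsum.congr ?_ (fun x => ?_)
  · rw [Finset.sum_const, nsmul_eq_mul, mul_one, hP]
  · have hmem : (fun l => S l x) ∈ P := by
      simp only [P, Fintype.mem_piFinset, Finset.mem_Icc]
      intro l
      exact abs_le.mp (hS2 l x)
    rw [Finset.sum_eq_single_of_mem _ hmem]
    · simp only [if_true, Finset.prod_const_one, mul_one, hS1]
    · intro z _ hz
      have : ∃ l, S l x ≠ z l := by
        by_contra hcon
        push Not at hcon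
        exact hz (funext fun l => (hcon l).symm)
      obtain ⟨l, hl⟩ := this
      rw [Finset.prod_eq_zero (Finset.mem_univ l) (if_neg hl), mul_zero]

end Cyl

/-! ### The discrepancy of generalized inner products -/

section BNS

variable {ι : Type} [Fintype ι] [DecidableEq ι]

/-- The sign of a generalized inner product. -/
def chi {κ : ℕ} (S : Finset ι) (x : Fin κ → ι → Bool) : ℝ :=
  ∏ i ∈ S, (if ∀ l, x l i = true then (-1 : ℝ) else 1)

/-- The bases of the bounds. -/
noncomputable def rho : ℕ → ℝ
  | 0 => 0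
  | k + 1 => Real.sqrt ((1 + rho k) / 2)

theorem rho_nonneg (k : ℕ) : 0 ≤ rho k := by
  cases k with
  | zero => exact le_rfl
  | succ k => exact Real.sqrt_nonneg _

theorem rho_lt_one (k : ℕ) : rho k < 1 := by
  induction k with
  | zero => exact zero_lt_one
  | succ k ih =>
    change Real.sqrt ((1 + rho k) / 2) < 1
    rw [Real.sqrt_lt' zero_lt_one]
    linarith

theorem sum_pairs (S : Finset ι) (ρ : ℝ) :
    ∑ y : ι → Bool, ∑ y' : ι → Bool, ρ ^ (S.filter (fun i => y i ≠ y' i)).card =
      (4 : ℝ) ^ Fintype.card ι * ((1 + ρ) / 2) ^ S.card := by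
  have h1 : ∀ y y' : ι → Bool, ρ ^ (S.filter (fun i => y i ≠ y' i)).card =
      ∏ i, (if i ∈ S ∧ y i ≠ y' i then ρ else 1) := by
    intro y y'
    rw [← Finset.prod_filter, Finset.prod_const]
    congr 2
    ext i
    simp
  have h2 : ∑ y : ι → Bool, ∑ y' : ι → Bool, ∏ i, (if i ∈ S ∧ y i ≠ y' i then ρ else 1) =
      ∑ p : ι → Bool × Bool, ∏ i, (if i ∈ S ∧ (p i).1 ≠ (p i).2 then ρ else 1) := by
    rw [← Fintype.sum_prod_type']
    exact (Fintype.sum_equiv (Equiv.arrowProdEquivProdArrow ι (fun _ => Bool) (fun _ => Bool)) _ _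
      (fun p => rfl)).symm
  simp only [h1]
  rw [h2]
  have h3 := Finset.prod_univ_sum (fun _ : ι => (Finset.univ : Finset (Bool × Bool)))
    (fun i (b : Bool × Bool) => if i ∈ S ∧ b.1 ≠ b.2 then ρ else 1)
  rw [Fintype.piFinset_univ] at h3
  rw [← h3]
  have h4 : ∀ i, ∑ b : Bool × Bool, (if i ∈ S ∧ b.1 ≠ b.2 then ρ else 1) =
      4 * (if i ∈ S then (1 + ρ) / 2 else 1) := by
    intro i
    rw [Fintype.sum_prod_type]
    simp only [Fintype.sum_bool]
    by_cases hi : i ∈ S
    · simp [hi]
      ring
    · simp [hi]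
      norm_num
  simp only [h4]
  rw [Finset.prod_mul_distrib, Finset.prod_const, Finset.card_univ, Finset.prod_ite_mem,
    Finset.univ_inter, Finset.prod_const]

theorem chi_sum (S : Finset ι) :
    ∑ y : ι → Bool, ∏ i ∈ S, (if y i = true then (-1 : ℝ) else 1) =
      (Fintype.card (ι → Bool) : ℝ) * 0 ^ S.card := by
  have h1 : ∀ y : ι → Bool, ∏ i ∈ S, (if y i = true then (-1 : ℝ) else 1) =
      ∏ i, (if i ∈ S ∧ y i = true then (-1 : ℝ) else 1) := by
    intro y
    rw [← Finset.prod_filter_mul_prod_filter_not Finset.univ (fun i => i ∈ S)]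
    rw [Finset.prod_eq_one (s := Finset.univ.filter (fun i => i ∉ S)), mul_one]
    · rw [Finset.filter_mem_eq_inter, Finset.univ_inter]
      refine Finset.prod_congr rfl fun i hi => ?_
      simp [hi]
    · intro i hi
      rw [Finset.mem_filter] at hi
      simp [hi.2]
  simp only [h1]
  have h3 := Finset.prod_univ_sum (fun _ : ι => (Finset.univ : Finset Bool))
    (fun i (b : Bool) => if i ∈ S ∧ b = true then (-1 : ℝ) else 1)
  rw [Fintype.piFinset_univ] at h3
  rw [← h3]
  have h4 : ∀ i, ∑ b : Bool, (if i ∈ S ∧ b = true then (-1 : ℝ) else 1) =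
      2 * (if i ∈ S then 0 else 1) := by
    intro i
    simp only [Fintype.sum_bool]
    by_cases hi : i ∈ S
    · simp [hi]
    · simp [hi]
      norm_num
  simp only [h4]
  rw [Finset.prod_mul_distrib, Finset.prod_const, Finset.card_univ, Finset.prod_ite_mem,
    Finset.univ_inter, Finset.prod_const]
  simp

omit [Fintype ι] [DecidableEq ι] in
theorem chi_cons_mul {k : ℕ} (S : Finset ι) (y y' : ι → Bool) (x : Fin k → ι → Bool) :
    chi S (Fin.cons y x : Fin (k + 1) → ι → Bool) *
      chi S (Fin.cons y' x : Fin (k + 1) → ι → Bool) =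
      chi (S.filter (fun i => y i ≠ y' i)) x := by
  unfold chi
  rw [← Finset.prod_mul_distrib, Finset.prod_filter]
  refine Finset.prod_congr rfl fun i _ => ?_
  simp only [Fin.forall_fin_succ, Fin.cons_zero, Fin.cons_succ]
  by_cases h : ∀ l, x l i = true
  · simp only [h, implies_true, and_true, if_true]
    cases y i <;> cases y' i <;> simp
  · simp only [h, and_false, if_false]
    simp

theorem bns (k : ℕ) : ∀ (S : Finset ι) (φ : Fin (k + 1) → (Fin (k + 1) → ι → Bool) → ℝ),
    (∀ l x, |φ l x| ≤ 1) → (∀ l, Indep l (φ l)) →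
    |∑ x, chi S x * ∏ l, φ l x| ≤
      (Fintype.card (Fin (k + 1) → ι → Bool) : ℝ) * rho k ^ S.card := by
  induction k with
  | zero =>
    intro S φ h1 h2
    let x₀ : Fin 1 → ι → Bool := fun _ _ => false
    have hc : ∀ x, ∏ l, φ l x = φ 0 x₀ := by
      intro x
      rw [Fin.prod_univ_one]
      exact h2 0 x x₀ (fun j hj => absurd (Fin.fin_one_eq_zero j) hj)
    simp only [hc]
    rw [← Finset.sum_mul, abs_mul]
    have hs : ∑ x : Fin 1 → ι → Bool, chi S x = (Fintype.card (ι → Bool) : ℝ) * 0 ^ S.card := by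
      rw [← chi_sum]
      refine Fintype.sum_equiv (Equiv.funUnique (Fin 1) (ι → Bool)) _ _ (fun x => ?_)
      unfold chi
      refine Finset.prod_congr rfl fun i _ => ?_
      have : (∀ l : Fin 1, x l i = true) ↔ (Equiv.funUnique (Fin 1) (ι → Bool) x) i = true := by
        constructor
        · intro h
          exact h 0
        · intro h l
          rw [Subsingleton.elim l 0]
          exact h
      simp only [this]
    rw [hs]
    have hcard : (Fintype.card (Fin (0 + 1) → ι → Bool) : ℝ) = Fintype.card (ι → Bool) := by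
      rw [Fintype.card_congr (Equiv.funUnique (Fin 1) (ι → Bool))]
    rw [hcard, abs_of_nonneg (by positivity)]
    change _ ≤ _ * (0 : ℝ) ^ S.card
    exact mul_le_of_le_one_right (by positivity) (h1 0 x₀)
  | succ k ih =>
    intro S φ h1 h2
    let Y := ι → Bool
    let d : Y := fun _ => false
    let X := Fin (k + 1) → ι → Bool
    let cs : Y → X → (Fin (k + 2) → ι → Bool) := fun y x => Fin.cons y x
    let g : X → ℝ := fun x => φ 0 (cs d x)
    let h : X → ℝ := fun x => ∑ y, chi S (cs y x) * ∏ l : Fin (k + 1), φ l.succ (cs y x)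
    have hsum : ∑ x, chi S x * ∏ l, φ l x = ∑ x, g x * h x := by
      rw [← (Fin.consEquiv (fun _ : Fin (k + 2) => ι → Bool)).sum_comp]
      rw [Fintype.sum_prod_type, Finset.sum_comm]
      refine Finset.sum_congr rfl fun x _ => ?_
      simp only [h, Finset.mul_sum]
      refine Finset.sum_congr rfl fun y _ => ?_
      change chi S (cs y x) * ∏ l, φ l (cs y x) = _
      rw [Fin.prod_univ_succ]
      have : φ 0 (cs y x) = g x := by
        refine h2 0 _ _ (fun j hj => ?_)
        obtain ⟨j', rfl⟩ := Fin.exists_succ_eq.mpr hj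
        rfl
      rw [this]
      ring
    rw [hsum]
    have hcs : (∑ x, g x * h x) ^ 2 ≤ (∑ x, g x ^ 2) * ∑ x, h x ^ 2 :=
      Finset.sum_mul_sq_le_sq_mul_sq _ _ _
    have hg : ∑ x, g x ^ 2 ≤ Fintype.card X := by
      calc ∑ x, g x ^ 2 ≤ ∑ _x : X, (1 : ℝ) := by
            refine Finset.sum_le_sum fun x _ => ?_
            rw [← sq_abs]
            exact pow_le_one₀ (abs_nonneg _) (h1 0 _)
        _ = Fintype.card X := by simp
    have hh : ∑ x, h x ^ 2 ≤ (Fintype.card X : ℝ) *
        ((4 : ℝ) ^ Fintype.card ι * ((1 + rho k) / 2) ^ S.card) := by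
      have e1 : ∑ x, h x ^ 2 = ∑ y : Y, ∑ y' : Y, ∑ x : X,
          chi (S.filter (fun i => y i ≠ y' i)) x *
            ∏ l : Fin (k + 1), (φ l.succ (cs y x) * φ l.succ (cs y' x)) := by
        have e2 : ∀ x, h x ^ 2 = ∑ y : Y, ∑ y' : Y, chi (S.filter (fun i => y i ≠ y' i)) x *
            ∏ l : Fin (k + 1), (φ l.succ (cs y x) * φ l.succ (cs y' x)) := by
          intro x
          rw [sq]
          simp only [h]
          rw [Finset.sum_mul_sum]
          refine Finset.sum_congr rfl fun y _ => Finset.sum_congr rfl fun y' _ => ?_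
          rw [← chi_cons_mul, Finset.prod_mul_distrib]
          ring
        simp only [e2]
        rw [Finset.sum_comm]
        refine Finset.sum_congr rfl fun y _ => ?_
        rw [Finset.sum_comm]
      rw [e1, ← sum_pairs, Finset.mul_sum]
      refine Finset.sum_le_sum fun y _ => ?_
      rw [Finset.mul_sum]
      refine Finset.sum_le_sum fun y' _ => ?_
      refine (le_abs_self _).trans (ih (S.filter (fun i => y i ≠ y' i))
        (fun l x => φ l.succ (cs y x) * φ l.succ (cs y' x)) (fun l x => ?_) (fun l => ?_))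
      · rw [abs_mul]
        exact mul_le_one₀ (h1 _ _) (abs_nonneg _) (h1 _ _)
      · intro x x' hx
        have : ∀ y : Y, φ l.succ (cs y x) = φ l.succ (cs y x') := by
          intro y
          refine h2 l.succ _ _ (fun j hj => ?_)
          refine Fin.cases ?_ (fun j' => ?_) j hj
          · intro _
            rfl
          · intro hj'
            exact hx j' (fun h => hj' (by rw [h]))
        simp only [this]
    have hrho : rho (k + 1) ^ 2 = (1 + rho k) / 2 := by
      change Real.sqrt ((1 + rho k) / 2) ^ 2 = _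
      rw [Real.sq_sqrt]
      have := rho_nonneg k
      linarith
    have hcard : (Fintype.card (Fin (k + 2) → ι → Bool) : ℝ) =
        Fintype.card Y * Fintype.card X := by
      rw [← Fintype.card_congr (Fin.consEquiv (fun _ : Fin (k + 2) => ι → Bool)),
        Fintype.card_prod]
      push_cast
      rfl
    have hY : (Fintype.card Y : ℝ) ^ 2 = 4 ^ Fintype.card ι := by
      have : Fintype.card Y = 2 ^ Fintype.card ι := by
        simp [Y]
      rw [this]
      push_cast
      rw [← pow_mul, mul_comm, pow_mul]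
      norm_num
    refine abs_le_of_sq_le_sq ?_ (mul_nonneg (by positivity) (pow_nonneg (rho_nonneg _) _))
    calc (∑ x, g x * h x) ^ 2 ≤ (∑ x, g x ^ 2) * ∑ x, h x ^ 2 := hcs
      _ ≤ Fintype.card X * ((Fintype.card X : ℝ) *
        ((4 : ℝ) ^ Fintype.card ι * ((1 + rho k) / 2) ^ S.card)) := by
          refine mul_le_mul hg hh (Finset.sum_nonneg fun x _ => sq_nonneg _) (by positivity)
      _ = (Fintype.card (Fin (k + 2) → ι → Bool) * rho (k + 1) ^ S.card) ^ 2 := by
          rw [hcard, mul_pow, ← pow_mul, mul_comm S.card 2, pow_mul, hrho, ← hY]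
          ring

end BNS

end Pool.Agent.L5helper58.WP
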