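import Pool.Agent.L5helper58.WP.Norm

/-!
# The generalized inner product does not reduce to the word problem by short words
-/

set_option autoImplicit false

namespace Pool.Agent.L5helper58.WP

open Finset

theorem chi_values {κ : ℕ} {ι : Type} (S : Finset ι) (x : Fin κ → ι → Bool) :
    chi S x = 1 ∨ chi S x = -1 := by
  classical
  unfold chi
  induction S using Finset.induction_on with
  | empty => left; simp
  | insert i S hi ih =>
    rw [Finset.prod_insert hi]
    rcases ih with h | h <;> rw [h] <;> split_ifs <;> norm_num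

theorem no_short {k M K B n : ℕ} (s : ℕ → ℕ)
    (ws : List (Fin (k + 1) × ((Fin (k + 1) → Fin M → Bool) → ℤ × ℤ))) (hn : ws.length ≤ n)
    (h1 : ∀ f ∈ ws, ∀ x, Ok (f.2 x)) (h2 : ∀ f ∈ ws, Indep f.1 f.2)
    (h : ∀ y, FF K B s (ev ws y) = 0 ↔ chi Finset.univ y = -1)
    (hQ : (2 * Qb (k + 1) K B n + 1) * rho k ^ M < 1) : False := by
  have hcyl := FF_cyl (0 : Fin (k + 1)) K B s ws hn h1 h2
  obtain ⟨X, hX⟩ : ∃ X : ℝ, X = (Fintype.card (Fin (k + 1) → Fin M → Bool) : ℝ) := ⟨_, rfl⟩
  have hX0 : 0 < X := by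
    rw [hX]
    exact_mod_cast Fintype.card_pos
  have hb := Cyl.bound (κ := k + 1) (Y := Fin M → Bool) (chi Finset.univ) (X * rho k ^ M) (by
    intro φ hφ1 hφ2
    have := bns k (Finset.univ : Finset (Fin M)) φ hφ1 hφ2
    rw [Finset.card_univ, Fintype.card_fin] at this
    rw [hX]
    exact this) hcyl
  have hchi := bns k (Finset.univ : Finset (Fin M)) (fun _ _ => 1) (by simp)
    (fun _ _ _ _ => rfl)
  rw [Finset.card_univ, Fintype.card_fin, ← hX] at hchi
  simp only [Finset.prod_const_one, mul_one] at hchi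
  have hpt : ∀ y : Fin (k + 1) → Fin M → Bool,
      (1 + chi Finset.univ y) / 2 ≤ chi Finset.univ y * (FF K B s (ev ws y) : ℝ) := by
    intro y
    rcases chi_values Finset.univ y with hy | hy
    · have h3 : FF K B s (ev ws y) ≠ 0 := by
        intro h0
        have := (h y).mp h0
        rw [hy] at this
        norm_num at this
      have h4 := FF_nonneg K B s (ev ws y)
      have h5 : (1 : ℝ) ≤ (FF K B s (ev ws y) : ℝ) := by
        exact_mod_cast (by omega : (1 : ℤ) ≤ FF K B s (ev ws y))
      rw [hy]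
      linarith
    · have h3 := (h y).mpr hy
      rw [h3, hy]
      norm_num
  have hsum := Finset.sum_le_sum (s := Finset.univ) (fun y _ => hpt y)
  have e1 : ∑ y : Fin (k + 1) → Fin M → Bool, (1 + chi Finset.univ y) / 2 =
      (X + ∑ y : Fin (k + 1) → Fin M → Bool, chi Finset.univ y) / 2 := by
    rw [← Finset.sum_div, Finset.sum_add_distrib, Finset.sum_const, Finset.card_univ,
      nsmul_eq_mul, mul_one, ← hX]
  rw [e1] at hsum
  have e2 := (abs_le.mp hchi).1
  have e3 := (abs_le.mp hb).2
  have e4 : (X - X * rho k ^ M) / 2 ≤ Qb (k + 1) K B n * (X * rho k ^ M) := by linarith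
  have e5 : X * 1 ≤ X * ((2 * Qb (k + 1) K B n + 1) * rho k ^ M) := by nlinarith
  have e6 := le_of_mul_le_mul_left e5 hX0
  linarith

end Pool.Agent.L5helper58.WP
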