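import Pool.Agent.L5helper58.WP.Main

/-!
# A non-solvable finitely generated group whose word problem is not hard for `ALOGTIME`

MP_458e77_lc, Q1: no. There are a finitely generated non-solvable group `G` and a regular language
`L` that has no many-one reduction to the word problem of `G` computed by circuits of constant depth
and polynomial size, uniform or not. Regular languages are in `ALOGTIME`.

The definitions are `AC0Reduces` in `Pool/Agent/L5helper58/WP/Main.lean`, `enc` in
`Pool/Agent/L5helper58/WP/Core.lean` and circuits (`Circuit`, `nodeVal`, `nodeDepth`) in
`Pool/Agent/H568R2/Defs.lean`.

Idea of the proof. The group `G` has two generators and acts on a sequence of blocks `ℤ × ℤ^ℕ`. One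
generator moves the position in `ℤ`, the other one acts, in the block `k`, at the positions
`0, s k, 2 s k, …, k s k` by the elementary row operations of the unitriangular matrices of size
`k + 2`. The spacings `s k` grow very fast. So a word of length `N` sees only the few blocks with
`s k < N`, and in them the word problem is the vanishing of one integral polynomial of bounded
degree in indicators of the form `the displacement of an initial segment of the word is z`. After a
random restriction the letters of the output of a reduction depend on a bounded number `c` of
inputs each, and this polynomial becomes a short combination of cylinder functions for `c + 1`
players with the inputs on their foreheads. The language `L` of exclusive ors of conjunctions of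
exclusive ors still contains all generalized inner products, which have exponentially small
discrepancy (Babai, Nisan, Szegedy). No separation of complexity classes is assumed.
-/

set_option autoImplicit false

namespace Pool.Agent.L5helper58.WP.Final

open Pool.Agent.L5helper58.WP

/-- There are a regular language `L` and a finitely generated non-solvable group `G` such that `L`
is not reducible to the word problem of `G` by (nonuniform) many-one reductions of constant depth
and polynomial size. -/
theorem result : ∃ L : Language (Fin 4), L.IsRegular ∧
    ∃ (G : Type) (_ : Group G), Group.FG G ∧ ¬ Group.IsSolvable G ∧ ¬ AC0Reduces L G := by
  obtain ⟨s, hs⟩ := main
  exact ⟨LL, LL_regular, GG s, inferInstance, GG_fg s, GG_not_solvable s, hs⟩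

end Pool.Agent.L5helper58.WP.Final
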