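import Mathlib

/-!
# A two-generator group with slowly revealed structure
-/

set_option autoImplicit false

namespace Pool.Agent.L5helper58.WP

/-- The row operation at the position `m` of the block `k` with spacing `s + 1`: if
`m = i * (s + 1)` with `i ≤ k`, then `e` times the entry `i + 1` is added to the entry `i`. -/
def stp (k s : ℕ) (m e : ℤ) (x : ℕ → ℤ) : ℕ → ℤ :=
  fun i => x i + (if i ≤ k ∧ m = i * (s + 1) then e * x (i + 1) else 0)

theorem stp_stp (k s : ℕ) (m e e' : ℤ) (x : ℕ → ℤ) :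
    stp k s m e (stp k s m e' x) = stp k s m (e + e') x := by
  funext i
  unfold stp
  by_cases h : i ≤ k ∧ m = i * (s + 1)
  · have h2 : ¬ (i + 1 ≤ k ∧ m = ((i + 1 : ℕ) : ℤ) * (s + 1)) := by
      rintro ⟨-, h3⟩
      rw [h.2] at h3
      push_cast at h3
      have : (0 : ℤ) ≤ s := Int.natCast_nonneg s
      nlinarith
    rw [if_pos h, if_pos h, if_pos h, if_neg h2]
    ring
  · rw [if_neg h, if_neg h, if_neg h]
    ring

theorem stp_zero (k s : ℕ) (m : ℤ) (x : ℕ → ℤ) : stp k s m 0 x = x := by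
  funext i
  unfold stp
  simp

/-- The points on which the group acts: the number of a block, a position in it, and a vector. -/
abbrev Pt : Type := ℕ × ℤ × (ℕ → ℤ)

/-- The shift of the position. -/
def tP : Equiv.Perm Pt where
  toFun p := (p.1, p.2.1 + 1, p.2.2)
  invFun p := (p.1, p.2.1 - 1, p.2.2)
  left_inv p := by simp
  right_inv p := by simp

/-- The row operation at the present position. -/
def aP (s : ℕ → ℕ) : Equiv.Perm Pt where
  toFun p := (p.1, p.2.1, stp p.1 (s p.1) p.2.1 1 p.2.2)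
  invFun p := (p.1, p.2.1, stp p.1 (s p.1) p.2.1 (-1) p.2.2)
  left_inv p := by
    simp only [stp_stp]
    norm_num [stp_zero]
  right_inv p := by
    simp only [stp_stp]
    norm_num [stp_zero]

/-- The group: generated by the shift and the row operation. -/
def GG (s : ℕ → ℕ) : Subgroup (Equiv.Perm Pt) := Subgroup.closure {tP, aP s}

theorem GG_fg (s : ℕ → ℕ) : Group.FG (GG s) := by
  classical
  unfold GG
  rw [Group.fg_iff_subgroup_fg]
  exact ⟨{tP, aP s}, by simp⟩

/-! ### Non-solvability -/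

/-- `g` adds the entry `j` to the entry `i` at the position `0` of the block `k`. -/
def Adds (k i j : ℕ) (g : Equiv.Perm Pt) : Prop :=
  ∀ x : ℕ → ℤ, g (k, 0, x) = (k, 0, Function.update x i (x i + x j))

theorem Adds.inv {k i j : ℕ} {g : Equiv.Perm Pt} (h : Adds k i j g) (hij : i ≠ j) (x : ℕ → ℤ) :
    g⁻¹ (k, 0, x) = (k, 0, Function.update x i (x i - x j)) := by
  rw [Equiv.Perm.inv_eq_iff_eq, h]
  congr 2
  funext l
  by_cases hl : l = i
  · subst hl
    simp [Function.update_of_ne hij.symm]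
  · simp [hl]

theorem tP_pow (k : ℕ) (m : ℤ) (x : ℕ → ℤ) (j : ℕ) : (tP ^ j) (k, m, x) = (k, m + j, x) := by
  induction j generalizing m with
  | zero => simp
  | succ j ih =>
    rw [pow_succ, Equiv.Perm.mul_apply]
    change (tP ^ j) (k, m + 1, x) = _
    rw [ih]
    push_cast
    congr 2
    ring

theorem adds_base (s : ℕ → ℕ) {k i : ℕ} (hi : i ≤ k) :
    ∃ g ∈ GG s, Adds k i (i + 1) g := by
  have ht : tP ∈ GG s := Subgroup.subset_closure (by simp)
  have ha : aP s ∈ GG s := Subgroup.subset_closure (by simp)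
  refine ⟨(tP ^ (i * (s k + 1)))⁻¹ * aP s * tP ^ (i * (s k + 1)),
    mul_mem (mul_mem (inv_mem (pow_mem ht _)) ha) (pow_mem ht _), fun x => ?_⟩
  rw [Equiv.Perm.mul_apply, Equiv.Perm.mul_apply, tP_pow, Equiv.Perm.inv_eq_iff_eq, tP_pow]
  change (k, _, stp k (s k) _ 1 x) = _
  congr 2
  funext l
  unfold stp
  push_cast
  rw [zero_add]
  by_cases hl : l = i
  · subst hl
    rw [if_pos ⟨hi, rfl⟩]
    simp
  · rw [if_neg, Function.update_of_ne hl, add_zero]
    rintro ⟨-, h⟩
    apply hl
    have h0 : (0 : ℤ) < (s k : ℤ) + 1 := by positivity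
    have := mul_right_cancel₀ h0.ne' h
    exact_mod_cast this.symm

theorem adds_comm {k a b c : ℕ} (hab : a ≠ b) (hbc : b ≠ c) (hac : a ≠ c) {g h : Equiv.Perm Pt}
    (hg : Adds k a b g) (hh : Adds k b c h) : Adds k a c (g * h * g⁻¹ * h⁻¹) := by
  intro x
  rw [Equiv.Perm.mul_apply, Equiv.Perm.mul_apply, Equiv.Perm.mul_apply, hh.inv hbc, hg.inv hab, hh, hg]
  congr 2
  funext l
  by_cases hla : l = a
  · subst hla
    simp [Function.update_of_ne hab, Function.update_of_ne hab.symm, Function.update_of_ne hac.symm,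
      Function.update_of_ne hbc.symm]
    ring
  · by_cases hlb : l = b
    · subst hlb
      simp [Function.update_of_ne hab, Function.update_of_ne hab.symm,
        Function.update_of_ne hac.symm, Function.update_of_ne hbc.symm]
    · simp [hla, hlb]

theorem adds_derived (s : ℕ → ℕ) (l : ℕ) : ∀ {k i : ℕ}, i + 2 ^ l ≤ k + 1 →
    ∃ g : GG s, g ∈ derivedSeries (GG s) l ∧ Adds k i (i + 2 ^ l) (g : Equiv.Perm Pt) := by
  induction l with
  | zero =>
    intro k i hi
    obtain ⟨g, hg, h⟩ := adds_base s (k := k) (i := i) (by simpa using hi)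
    exact ⟨⟨g, hg⟩, by simp [derivedSeries_zero], h⟩
  | succ l ih =>
    intro k i hi
    have h2 : 0 < 2 ^ l := by positivity
    rw [pow_succ] at hi
    obtain ⟨g, hg, hg'⟩ := ih (k := k) (i := i) (by omega)
    obtain ⟨h, hh, hh'⟩ := ih (k := k) (i := i + 2 ^ l) (by omega)
    refine ⟨g * h * g⁻¹ * h⁻¹, ?_, ?_⟩
    · rw [derivedSeries_succ]
      exact Subgroup.commutator_mem_commutator hg hh
    · have := adds_comm (k := k) (a := i) (b := i + 2 ^ l) (c := i + 2 ^ l + 2 ^ l) (by omega)
        (by omega) (by omega) hg' hh'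
      rw [pow_succ, show i + 2 ^ l * 2 = i + 2 ^ l + 2 ^ l by ring]
      exact this

theorem GG_not_solvable (s : ℕ → ℕ) : ¬ Group.IsSolvable (GG s) := by
  rintro ⟨l, hl⟩
  obtain ⟨g, hg, h⟩ := adds_derived s l (k := 2 ^ l) (i := 0) (by omega)
  rw [hl, Subgroup.mem_bot] at hg
  subst hg
  have h2 := h (fun _ => 1)
  simp only [OneMemClass.coe_one, Equiv.Perm.coe_one, id_eq, Prod.mk.injEq, true_and] at h2
  have h3 := congrFun h2 0
  simp at h3

/-! ### Words -/

/-- One letter in a block. -/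
def actB (k s : ℕ) (c : ℤ × ℤ) (q : ℤ × (ℕ → ℤ)) : ℤ × (ℕ → ℤ) :=
  (q.1 + c.1, stp k s q.1 c.2 q.2)

/-- The action of a word in a block, the last letter first. -/
def runB (k s : ℕ) (w : List (ℤ × ℤ)) (q : ℤ × (ℕ → ℤ)) : ℤ × (ℕ → ℤ) :=
  w.foldr (actB k s) q

/-- The word acts trivially in the block. -/
def TrivB (k s : ℕ) (w : List (ℤ × ℤ)) : Prop := ∀ q, runB k s w q = q

/-- The letters used. -/
def Ok (c : ℤ × ℤ) : Prop := |c.1| ≤ 1 ∧ |c.2| ≤ 1

theorem runB_append (k s : ℕ) (w v : List (ℤ × ℤ)) (q : ℤ × (ℕ → ℤ)) :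
    runB k s (w ++ v) q = runB k s w (runB k s v q) := by
  unfold runB
  rw [List.foldr_append]

/-- `g` acts as the word `w`. -/
def Is (s : ℕ → ℕ) (g : Equiv.Perm Pt) (w : List (ℤ × ℤ)) : Prop :=
  ∀ k q, g (k, q) = (k, runB k (s k) w q)

theorem Is.mul {s : ℕ → ℕ} {g h : Equiv.Perm Pt} {w v : List (ℤ × ℤ)} (hg : Is s g w)
    (hh : Is s h v) : Is s (g * h) (w ++ v) := by
  intro k q
  rw [Equiv.Perm.mul_apply, hh, hg, runB_append]

theorem Is.one (s : ℕ → ℕ) : Is s 1 [] := fun _ _ => rfl

theorem Is.blank (s : ℕ → ℕ) (n : ℕ) : Is s 1 (List.replicate n (0, 0)) := by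
  induction n with
  | zero => exact Is.one s
  | succ n ih =>
    intro k q
    rw [List.replicate_succ]
    change (k, q) = (k, actB k (s k) (0, 0) (runB k (s k) (List.replicate n (0, 0)) q))
    have := ih k q
    have h2 : runB k (s k) (List.replicate n (0, 0)) q = q := by
      have h3 := congrArg Prod.snd this
      exact h3.symm
    rw [h2]
    unfold actB
    rw [stp_zero, add_zero]

theorem exists_word (s : ℕ → ℕ) {g : Equiv.Perm Pt} (hg : g ∈ GG s) :
    ∃ w : List (ℤ × ℤ), (∀ c ∈ w, Ok c) ∧ Is s g w := by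
  have hg2 : g ∈ (Subgroup.closure ({tP, aP s} : Set (Equiv.Perm Pt))).toSubmonoid := hg
  rw [Subgroup.closure_toSubmonoid] at hg2
  obtain ⟨l, hl, rfl⟩ := Submonoid.exists_list_of_mem_closure hg2
  clear hg hg2
  induction l with
  | nil => exact ⟨[], by simp, Is.one s⟩
  | cons y l ih =>
    obtain ⟨w, hw, hI⟩ := ih (fun z hz => hl z (List.mem_cons_of_mem _ hz))
    have hy : ∃ c, Ok c ∧ Is s y [c] := by
      rcases hl y (by simp) with h | h
      · rcases h with rfl | h
        · refine ⟨(1, 0), by unfold Ok; norm_num, fun k q => ?_⟩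
          change (k, q.1 + 1, q.2) = (k, q.1 + 1, stp k (s k) q.1 0 q.2)
          rw [stp_zero]
        · rw [Set.mem_singleton_iff] at h
          subst h
          refine ⟨(0, 1), by unfold Ok; norm_num, fun k q => ?_⟩
          change (k, q.1, stp k (s k) q.1 1 q.2) = (k, q.1 + 0, stp k (s k) q.1 1 q.2)
          rw [add_zero]
      · rw [Set.mem_inv] at h
        rcases h with h | h
        · refine ⟨(-1, 0), by unfold Ok; norm_num, fun k q => ?_⟩
          have : y = tP⁻¹ := by rw [← h, inv_inv]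
          rw [this, Equiv.Perm.inv_eq_iff_eq]
          change (k, q) = (k, q.1 + -1 + 1, stp k (s k) q.1 0 q.2)
          rw [stp_zero, neg_add_cancel_right]
        · rw [Set.mem_singleton_iff] at h
          refine ⟨(0, -1), by unfold Ok; norm_num, fun k q => ?_⟩
          have : y = (aP s)⁻¹ := by rw [← h, inv_inv]
          rw [this, Equiv.Perm.inv_eq_iff_eq]
          change (k, q) = (k, q.1 + 0, stp k (s k) (q.1 + 0) 1 (stp k (s k) q.1 (-1) q.2))
          rw [add_zero, stp_stp, add_neg_cancel, stp_zero]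
    obtain ⟨c, hc, hIc⟩ := hy
    refine ⟨c :: w, ?_, ?_⟩
    · intro c' hc'
      rcases List.mem_cons.mp hc' with rfl | hc'
      · exact hc
      · exact hw c' hc'
    · rw [List.prod_cons]
      exact hIc.mul hI

theorem exists_words (s : ℕ → ℕ) {σ : Type} [Finite σ] (π : σ → GG s) :
    ∃ (l : ℕ) (W : σ → List (ℤ × ℤ)), (∀ a, (W a).length = l) ∧ (∀ a, ∀ c ∈ W a, Ok c) ∧
      ∀ a, Is s (π a : Equiv.Perm Pt) (W a) := by
  classical
  have := Fintype.ofFinite σ
  choose w hw hI using fun a => exists_word s (π a).2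
  refine ⟨Finset.univ.sup (fun a => (w a).length),
    fun a => w a ++ List.replicate (Finset.univ.sup (fun a => (w a).length) - (w a).length) (0, 0),
    fun a => ?_, fun a c hc => ?_, fun a => ?_⟩
  · rw [List.length_append, List.length_replicate]
    have : (w a).length ≤ Finset.univ.sup (fun a => (w a).length) :=
      Finset.le_sup (f := fun a => (w a).length) (Finset.mem_univ a)
    omega
  · rcases List.mem_append.mp hc with hc | hc
    · exact hw a c hc
    · rw [List.eq_of_mem_replicate hc]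
      unfold Ok
      norm_num
  · have := (hI a).mul (Is.blank s (Finset.univ.sup (fun a => (w a).length) - (w a).length))
    rwa [mul_one] at this

theorem prod_is {s : ℕ → ℕ} {σ : Type} {π : σ → GG s} {W : σ → List (ℤ × ℤ)}
    (hI : ∀ a, Is s (π a : Equiv.Perm Pt) (W a)) (l : List σ) :
    Is s (((l.map π).prod : GG s) : Equiv.Perm Pt) (l.flatMap W) := by
  induction l with
  | nil => exact Is.one s
  | cons a l ih =>
    rw [List.map_cons, List.prod_cons, List.flatMap_cons]
    exact (hI a).mul ih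

theorem is_one_iff {s : ℕ → ℕ} {g : GG s} {w : List (ℤ × ℤ)}
    (h : Is s (g : Equiv.Perm Pt) w) : g = 1 ↔ ∀ k, TrivB k (s k) w := by
  constructor
  · rintro rfl k q
    have := h k q
    exact (congrArg Prod.snd this).symm
  · intro hk
    apply Subtype.ext
    ext1 p
    obtain ⟨k, q⟩ := p
    rw [h, hk k q]
    rfl

end Pool.Agent.L5helper58.WP
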