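import Pool.Agent.L5helper58.WP.Asym

/-!
# A finitely generated non-solvable group whose word problem is not hard
-/

set_option autoImplicit false

namespace Pool.Agent.L5helper58.WP

open Finset DomAC0

/-- Definition by recursion on all smaller values. -/
theorem exists_rec (H : ℕ → (ℕ → ℕ) → ℕ) :
    ∃ s : ℕ → ℕ, ∀ k, s k = H k (fun j => if j < k then s j else 0) := by
  let F : (k : ℕ) → ((j : ℕ) → j < k → ℕ) → ℕ := fun k ih =>
    H k (fun j => if h : j < k then ih j h else 0)
  refine ⟨(Nat.lt_wfRel.wf).fix (C := fun _ => ℕ) F, fun k => ?_⟩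
  rw [WellFounded.fix_eq]
  change H k _ = H k _
  congr 1

/-- The language `L` has a many-one reduction to the word problem of `G` that is computed by
circuits of constant depth and polynomial size. For words of length `n` there are a circuit of size
at most `n ^ D + D` and nodes of depth at most `D`; on the input `U` they give the `N ≤ n ^ D + D`
letters of a word over an alphabet of strings of `b` bits, and `π` maps these letters to elements
of `G`. -/
def AC0Reduces {A : Type} [DecidableEq A] (L : Language A) (G : Type) [Group G] : Prop :=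
  ∃ (b : ℕ) (π : (Fin b → Bool) → G) (D : ℕ), ∀ n : ℕ,
    ∃ (C : Circuit (Fin n × A)) (N : ℕ) (out : Fin N → Fin b → (Fin n × A) ⊕ Fin C.size),
      C.size ≤ n ^ D + D ∧ N ≤ n ^ D + D ∧ (∀ i j, C.nodeDepth (out i j) ≤ D) ∧
      ∀ U : List A, U.length = n → (U ∈ L ↔
        ((List.finRange N).map (fun i => π (fun j => C.nodeVal (enc n U) (out i j)))).prod = 1)

theorem main : ∃ s : ℕ → ℕ, ¬ AC0Reduces LL (GG s) := by
  choose nn hnn using exists_length
  obtain ⟨s, hs⟩ := exists_rec (fun k g => ∑ j ∈ range k, g j +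
    ∑ D ∈ range (k + 1), ∑ b ∈ range (k + 1), ∑ ℓ ∈ range (k + 1),
      ((nn k g D b ℓ) ^ D + D) * ℓ)
  refine ⟨s, ?_⟩
  rintro ⟨b, π, D, hred⟩
  obtain ⟨ℓ, W, hW1, hW2, hW3⟩ := exists_words s π
  obtain ⟨K, hK⟩ : ∃ K, K = D + b + ℓ + 1 := ⟨_, rfl⟩
  obtain ⟨g, hg⟩ : ∃ g : ℕ → ℕ, g = fun j => if j < K then s j else 0 := ⟨_, rfl⟩
  obtain ⟨C, N, out, h1, h2, h3, h4⟩ := hred (nn K g D b ℓ)
  refine hnn K g D b ℓ W hW1 hW2 C N out h1 h2 h3 (fun U hU => ?_)
  rw [h4 U hU]
  have hI := prod_is hW3 ((List.finRange N).map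
    (fun i => (fun j => C.nodeVal (enc (nn K g D b ℓ) U) (out i j))))
  rw [List.map_map, List.flatMap_map] at hI
  obtain ⟨w, hw⟩ : ∃ w, w = (List.finRange N).flatMap
    (fun i => W (fun j => C.nodeVal (enc (nn K g D b ℓ) U) (out i j))) := ⟨_, rfl⟩
  have hI' : Is s ((((List.finRange N).map (fun i => π (fun j =>
      C.nodeVal (enc (nn K g D b ℓ) U) (out i j)))).prod : GG s) : Equiv.Perm Pt) w := by
    rw [hw]
    exact hI
  rw [is_one_iff hI', ← hw]
  have hgs : ∀ j < K, g j = s j := by
    intro j hj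
    rw [hg]
    exact if_pos hj
  have hok : ∀ c ∈ w, Ok c := by
    intro c hc
    rw [hw, List.mem_flatMap] at hc
    obtain ⟨i, -, hc⟩ := hc
    exact hW2 _ c hc
  have hlen : w.length ≤ s K := by
    have e1 : w.length = N * ℓ := by
      rw [hw, List.length_flatMap]
      simp [hW1]
    have e2 : ((nn K g D b ℓ) ^ D + D) * ℓ ≤ s K := by
      rw [hs K]
      simp only
      rw [← hg]
      have e3 : ((nn K g D b ℓ) ^ D + D) * ℓ ≤
          ∑ ℓ' ∈ range (K + 1), ((nn K g D b ℓ') ^ D + D) * ℓ' :=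
        Finset.single_le_sum (f := fun ℓ' => ((nn K g D b ℓ') ^ D + D) * ℓ')
          (fun _ _ => Nat.zero_le _) (mem_range.mpr (by omega))
      have e4 : ∑ ℓ' ∈ range (K + 1), ((nn K g D b ℓ') ^ D + D) * ℓ' ≤
          ∑ b' ∈ range (K + 1), ∑ ℓ' ∈ range (K + 1), ((nn K g D b' ℓ') ^ D + D) * ℓ' :=
        Finset.single_le_sum
          (f := fun b' => ∑ ℓ' ∈ range (K + 1), ((nn K g D b' ℓ') ^ D + D) * ℓ')
          (fun _ _ => Nat.zero_le _) (mem_range.mpr (by omega))
      have e5 : ∑ b' ∈ range (K + 1), ∑ ℓ' ∈ range (K + 1), ((nn K g D b' ℓ') ^ D + D) * ℓ' ≤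
          ∑ D' ∈ range (K + 1), ∑ b' ∈ range (K + 1), ∑ ℓ' ∈ range (K + 1),
            ((nn K g D' b' ℓ') ^ D' + D') * ℓ' :=
        Finset.single_le_sum
          (f := fun D' => ∑ b' ∈ range (K + 1), ∑ ℓ' ∈ range (K + 1),
            ((nn K g D' b' ℓ') ^ D' + D') * ℓ')
          (fun _ _ => Nat.zero_le _) (mem_range.mpr (by omega))
      omega
    rw [e1]
    exact (Nat.mul_le_mul_right _ h2).trans e2
  constructor
  · intro h j hj
    rw [hgs j hj]
    exact h j
  · intro h k
    rcases Nat.lt_or_ge k K with hk | hk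
    · rw [← hgs k hk]
      exact h k hk
    · have h0 : TrivB 0 (s 0) w := by
        have := h 0 (by omega)
        rwa [hgs 0 (by omega)] at this
      refine triv_far hok (hlen.trans ?_) h0
      rcases hk.eq_or_lt with rfl | hlt
      · exact le_rfl
      · rw [hs k]
        have e1 : (fun j => if j < k then s j else 0) K ≤
            ∑ j ∈ range k, (fun j => if j < k then s j else 0) j :=
          Finset.single_le_sum (f := fun j => if j < k then s j else 0)
            (fun _ _ => Nat.zero_le _) (mem_range.mpr hlt)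
        simp only [hlt, if_true] at e1
        exact e1.trans (Nat.le_add_right _ _)

end Pool.Agent.L5helper58.WP
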