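import Pool.Agent.L5helper58.WP.Chain
import Pool.Agent.L5helper58.WP.Cyl

/-!
# The cylinder norm of the test function
-/

set_option autoImplicit false

namespace Pool.Agent.L5helper58.WP

open Finset

variable {κ : ℕ} {Y : Type}

/-- The word of a list of functions at a point. -/
def ev (ws : List (Fin κ × ((Fin κ → Y) → ℤ × ℤ))) (x : Fin κ → Y) : List (ℤ × ℤ) :=
  ws.map (fun f => f.2 x)

theorem Cyl.one (l₀ : Fin κ) : Cyl (κ := κ) (Y := Y) 1 (fun _ => (1 : ℝ)) :=
  Cyl.single l₀ (fun _ => 1) (by simp) (fun _ _ _ => rfl)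

theorem pos_cyl (l₀ : Fin κ) (ws : List (Fin κ × ((Fin κ → Y) → ℤ × ℤ)))
    (h1 : ∀ f ∈ ws, ∀ x, Ok (f.2 x)) (h2 : ∀ f ∈ ws, Indep f.1 f.2) :
    Cyl (ws.length : ℝ) (fun x => (pos (ev ws x) : ℝ)) := by
  induction ws with
  | nil => exact (Cyl.zero l₀).congr (by simp) (fun x => by simp [ev, pos])
  | cons f ws ih =>
    have h3 := ih (fun g hg => h1 g (List.mem_cons_of_mem _ hg))
      (fun g hg => h2 g (List.mem_cons_of_mem _ hg))
    have h4 : Cyl (κ := κ) (Y := Y) 1 (fun x => ((f.2 x).1 : ℝ)) := by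
      refine Cyl.single f.1 _ (fun x => ?_) (fun x x' hx => ?_)
      · have := (h1 f (by simp) x).1
        exact_mod_cast this
      · rw [h2 f (by simp) x x' hx]
    refine (h4.add h3).congr ?_ (fun x => ?_)
    · rw [List.length_cons]
      push_cast
      linarith
    · unfold ev
      rw [List.map_cons, pos_cons]
      push_cast
      rfl

theorem ind_cyl (l₀ : Fin κ) (ws : List (Fin κ × ((Fin κ → Y) → ℤ × ℤ))) {n : ℕ}
    (hn : ws.length ≤ n)
    (h1 : ∀ f ∈ ws, ∀ x, Ok (f.2 x)) (h2 : ∀ f ∈ ws, Indep f.1 f.2) (z : ℤ) :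
    Cyl ((2 * (n : ℝ) + 1) ^ κ) (fun x => if pos (ev ws x) = z then (1 : ℝ) else 0) := by
  have h := Cyl.count l₀ (ws.map (fun f => (f.1, fun x => (f.2 x).1))) (by
    intro f hf x
    rw [List.mem_map] at hf
    obtain ⟨g, hg, rfl⟩ := hf
    exact (h1 g hg x).1) (by
    intro f hf x x' hx
    rw [List.mem_map] at hf
    obtain ⟨g, hg, rfl⟩ := hf
    simp only
    rw [h2 g hg x x' hx]) z
  refine h.congr ?_ (fun x => ?_)
  · rw [List.length_map]
    have : (ws.length : ℝ) ≤ n := by exact_mod_cast hn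
    gcongr
  · have : (List.map (fun f => f.2 x)
        (ws.map (fun f => ((f.1, fun x => (f.2 x).1) : Fin κ × ((Fin κ → Y) → ℤ))))).sum =
        pos (ev ws x) := by
      rw [List.map_map]
      unfold pos ev
      rw [List.map_map]
      rfl
    rw [this]

theorem cf_cyl (l₀ : Fin κ) {n : ℕ} (k s : ℕ) (m : ℤ)
    (ws : List (Fin κ × ((Fin κ → Y) → ℤ × ℤ))) (hn : ws.length ≤ n)
    (h1 : ∀ f ∈ ws, ∀ x, Ok (f.2 x)) (h2 : ∀ f ∈ ws, Indep f.1 f.2) : ∀ (a r : ℕ),
    Cyl (((ws.length : ℝ) * (2 * (n : ℝ) + 1) ^ κ) ^ r)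
      (fun x => (cf k s m (ev ws x) a r : ℝ)) := by
  induction ws with
  | nil =>
    intro a r
    cases r with
    | zero => exact (Cyl.one l₀).congr (by simp) (fun x => by simp [ev, cf])
    | succ r => exact (Cyl.zero l₀).congr (by simp) (fun x => by simp [ev, cf])
  | cons f ws ih =>
    rw [List.length_cons] at hn
    have h3 : ∀ g ∈ ws, ∀ x, Ok (g.2 x) := fun g hg => h1 g (List.mem_cons_of_mem _ hg)
    have h4 : ∀ g ∈ ws, Indep g.1 g.2 := fun g hg => h2 g (List.mem_cons_of_mem _ hg)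
    have ih' := ih (by omega) h3 h4
    intro a r
    cases r with
    | zero => exact (Cyl.one l₀).congr (by simp) (fun x => by simp [cf_zero])
    | succ r =>
      obtain ⟨B, hB⟩ : ∃ B : ℝ, B = (2 * (n : ℝ) + 1) ^ κ := ⟨_, rfl⟩
      have hB0 : 0 ≤ B := by rw [hB]; positivity
      rw [← hB] at ih' ⊢
      have hlen : (((f :: ws).length : ℕ) : ℝ) = ws.length + 1 := by
        rw [List.length_cons]
        push_cast
        ring
      rw [hlen]
      have hlen0 : (0 : ℝ) ≤ ws.length := Nat.cast_nonneg _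
      by_cases ha : a ≤ k
      · have e1 := ih' a (r + 1)
        have e2 := ind_cyl l₀ ws (by omega : ws.length ≤ n) h3 h4 (a * (s + 1) - m)
        have e3 : Cyl (κ := κ) (Y := Y) 1 (fun x => ((f.2 x).2 : ℝ)) := by
          refine Cyl.single f.1 _ (fun x => ?_) (fun x x' hx => ?_)
          · have := (h1 f (by simp) x).2
            exact_mod_cast this
          · rw [h2 f (by simp) x x' hx]
        have e4 := ih' (a + 1) r
        rw [← hB] at e2
        refine (e1.add (e2.mul (e3.mul e4))).congr ?_ (fun x => ?_)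
        · have h5 : ((ws.length : ℝ) * B) ^ r ≤ (((ws.length : ℝ) + 1) * B) ^ r := by
            gcongr
            linarith
          calc ((ws.length : ℝ) * B) ^ (r + 1) + B * (1 * ((ws.length : ℝ) * B) ^ r)
              = ((ws.length : ℝ) * B) ^ r * (((ws.length : ℝ) + 1) * B) := by
                rw [pow_succ]
                ring
            _ ≤ (((ws.length : ℝ) + 1) * B) ^ r * (((ws.length : ℝ) + 1) * B) := by gcongr
            _ = _ := by rw [pow_succ]
        · have e5 : ev (f :: ws) x = f.2 x :: ev ws x := rfl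
          rw [e5, cf_cons]
          by_cases hc : m + pos (ev ws x) = a * (s + 1)
          · rw [if_pos ⟨ha, hc⟩, if_pos (by linarith)]
            push_cast
            ring
          · rw [if_neg (fun h => hc h.2), if_neg (fun h => hc (by linarith))]
            push_cast
            ring
      · refine (ih' a (r + 1)).congr ?_ (fun x => ?_)
        · gcongr
          linarith
        · have e5 : ev (f :: ws) x = f.2 x :: ev ws x := rfl
          rw [e5, cf_cons, if_neg (fun h => ha h.1), add_zero]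

/-- The bound for the cylinder norm of the test function. -/
noncomputable def Qb (κ K B n : ℕ) : ℝ :=
  K * ((n : ℝ) ^ 2 + (2 * B + 1) * (K * (K * (((n : ℝ) * (2 * (n : ℝ) + 1) ^ κ) + 1) ^ (2 * K))))

theorem FF_cyl (l₀ : Fin κ) {n : ℕ} (K B : ℕ) (s : ℕ → ℕ)
    (ws : List (Fin κ × ((Fin κ → Y) → ℤ × ℤ))) (hn : ws.length ≤ n)
    (h1 : ∀ f ∈ ws, ∀ x, Ok (f.2 x)) (h2 : ∀ f ∈ ws, Indep f.1 f.2) :
    Cyl (Qb κ K B n) (fun x => (FF K B s (ev ws x) : ℝ)) := by
  obtain ⟨β, hβ⟩ : ∃ β : ℝ, β = ((n : ℝ) * (2 * (n : ℝ) + 1) ^ κ) + 1 := ⟨_, rfl⟩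
  have hβ1 : 1 ≤ β := by
    rw [hβ]
    have : (0 : ℝ) ≤ (n : ℝ) * (2 * (n : ℝ) + 1) ^ κ := by positivity
    linarith
  have hlen : (ws.length : ℝ) ≤ n := by exact_mod_cast hn
  have hc : ∀ k ∈ range K, Cyl ((n : ℝ) ^ 2 + (2 * B + 1) * (K * (K * β ^ (2 * K))))
      (fun x => ((pos (ev ws x) : ℝ) ^ 2 + ∑ m ∈ Icc (-(B : ℤ)) B, ∑ a ∈ range K, ∑ r ∈ range K,
        (cf k (s k) m (ev ws x) a (r + 1) : ℝ) ^ 2)) := by
    intro k _
    have hp := pos_cyl l₀ ws h1 h2
    have hp2 : Cyl ((n : ℝ) ^ 2) (fun x => (pos (ev ws x) : ℝ) ^ 2) := by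
      refine (hp.mul hp).congr ?_ (fun x => by ring)
      rw [← sq]
      gcongr
    have hr : ∀ (m : ℤ) (a : ℕ), ∀ r ∈ range K, Cyl (β ^ (2 * K))
        (fun x => (cf k (s k) m (ev ws x) a (r + 1) : ℝ) ^ 2) := by
      intro m a r hr
      rw [mem_range] at hr
      have h3 := cf_cyl l₀ k (s k) m ws hn h1 h2 a (r + 1)
      refine (h3.mul h3).congr ?_ (fun x => by ring)
      have h4 : ((ws.length : ℝ) * (2 * (n : ℝ) + 1) ^ κ) ^ (r + 1) ≤ β ^ K := by
        calc ((ws.length : ℝ) * (2 * (n : ℝ) + 1) ^ κ) ^ (r + 1) ≤ β ^ (r + 1) := by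
              rw [hβ]
              have : (ws.length : ℝ) * (2 * (n : ℝ) + 1) ^ κ ≤ (n : ℝ) * (2 * (n : ℝ) + 1) ^ κ := by
                gcongr
              gcongr
              linarith
          _ ≤ β ^ K := pow_le_pow_right₀ hβ1 (by omega)
      calc ((ws.length : ℝ) * (2 * (n : ℝ) + 1) ^ κ) ^ (r + 1) *
            ((ws.length : ℝ) * (2 * (n : ℝ) + 1) ^ κ) ^ (r + 1) ≤ β ^ K * β ^ K := by
            gcongr
        _ = β ^ (2 * K) := by rw [← pow_add, two_mul]
    have ha : ∀ (m : ℤ), ∀ a ∈ range K, Cyl (K * β ^ (2 * K))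
        (fun x => ∑ r ∈ range K, (cf k (s k) m (ev ws x) a (r + 1) : ℝ) ^ 2) := by
      intro m a _
      refine (Cyl.sum l₀ _ _ _ (hr m a)).congr ?_ (fun x => rfl)
      rw [Finset.sum_const, card_range, nsmul_eq_mul]
    have hm : ∀ m ∈ Icc (-(B : ℤ)) B, Cyl (K * (K * β ^ (2 * K)))
        (fun x => ∑ a ∈ range K, ∑ r ∈ range K,
          (cf k (s k) m (ev ws x) a (r + 1) : ℝ) ^ 2) := by
      intro m _
      refine (Cyl.sum l₀ _ _ _ (ha m)).congr ?_ (fun x => rfl)
      rw [Finset.sum_const, card_range, nsmul_eq_mul]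
    have hs := Cyl.sum l₀ _ _ _ hm
    refine (hp2.add hs).congr ?_ (fun x => rfl)
    rw [Finset.sum_const, Int.card_Icc, nsmul_eq_mul]
    have : (((B : ℤ) + 1 - -(B : ℤ)).toNat : ℝ) = 2 * (B : ℝ) + 1 := by
      have h : ((B : ℤ) + 1 - -(B : ℤ)) = ((2 * B + 1 : ℕ) : ℤ) := by
        push_cast
        ring
      rw [h, Int.toNat_natCast]
      push_cast
      ring
    rw [this]
  refine (Cyl.sum l₀ _ _ _ hc).congr ?_ (fun x => ?_)
  · rw [Finset.sum_const, card_range, nsmul_eq_mul, hβ]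
    rfl
  · unfold FF
    push_cast
    rfl

end Pool.Agent.L5helper58.WP
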